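import Mathlib

open Finset ComplexConjugate

namespace Pool.Agent.W_MP_308f9e_co

/-- The cone spanned by `1` and `t`. -/
def K (t : ℂ) : AddSubmonoid ℂ where
  carrier := {z | ∃ a b : ℝ, 0 ≤ a ∧ 0 ≤ b ∧ z = a + b * t}
  zero_mem' := ⟨0, 0, le_rfl, le_rfl, by simp⟩
  add_mem' := by
    rintro x y ⟨a, b, ha, hb, rfl⟩ ⟨c, d, hc, hd, rfl⟩
    refine ⟨a + c, b + d, by positivity, by positivity, ?_⟩
    push_cast; ring

lemma mem_K {t z : ℂ} : z ∈ K t ↔ ∃ a b : ℝ, 0 ≤ a ∧ 0 ≤ b ∧ z = a + b * t := Iff.rfl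

lemma K_real {t : ℂ} {r : ℝ} (hr : 0 ≤ r) : (r : ℂ) ∈ K t := ⟨r, 0, hr, le_rfl, by simp⟩

lemma K_self {t : ℂ} (f : ℂ) : f * conj f ∈ K t := by
  rw [Complex.mul_conj]
  exact K_real (Complex.normSq_nonneg f)

lemma K_swap {t f g : ℂ} (h : g * conj f ∈ K t) : t * f * conj g ∈ K t := by
  obtain ⟨a, b, ha, hb, hab⟩ := h
  refine ⟨b * Complex.normSq t, a, mul_nonneg hb (Complex.normSq_nonneg t), ha, ?_⟩
  have h2 : conj g * f = a + b * conj t := by
    have := congrArg conj hab
    simpa using this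
  have h3 : (Complex.normSq t : ℂ) = t * conj t := (Complex.mul_conj t).symm
  push_cast
  rw [h3]
  calc t * f * conj g = t * (conj g * f) := by ring
    _ = t * (a + b * conj t) := by rw [h2]
    _ = b * (t * conj t) + a * t := by ring

lemma K_sum {t : ℂ} {s r : Finset ℕ} {f g : ℕ → ℂ}
    (h : ∀ i ∈ s, ∀ j ∈ r, f i * conj (g j) ∈ K t) :
    (∑ i ∈ s, f i) * conj (∑ j ∈ r, g j) ∈ K t := by
  rw [map_sum, Finset.sum_mul]
  refine AddSubmonoid.sum_mem _ fun i hi => ?_
  rw [Finset.mul_sum]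
  exact AddSubmonoid.sum_mem _ fun j hj => h i hi j hj

lemma K_neg {t : ℂ} (ht : t ∈ Complex.slitPlane) {r : ℝ} (h : ((-r : ℝ) : ℂ) ∈ K t) : r ≤ 0 := by
  obtain ⟨a, b, ha, hb, hab⟩ := h
  have hre := congrArg Complex.re hab
  have him := congrArg Complex.im hab
  simp at hre him
  rw [Complex.mem_slitPlane_iff] at ht
  rcases ht with ht | ht
  · have : 0 ≤ b * t.re := by positivity
    linarith
  · have hb0 : b = 0 := by
      rcases him with h | h
      · exact h
      · exact absurd h ht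
    rw [hb0] at hre
    simp at hre
    linarith

/-- If `g * conj f` is in the cone and `f ≠ 0` then `f + g ≠ 0`. -/
lemma add_ne_zero_of_K {t : ℂ} (ht : t ∈ Complex.slitPlane) {f g : ℂ} (h : g * conj f ∈ K t)
    (hf : f ≠ 0) : f + g ≠ 0 := by
  intro h0
  have hg : g = -f := by linear_combination h0
  rw [hg, neg_mul, Complex.mul_conj] at h
  have : Complex.normSq f ≤ 0 := K_neg ht (by push_cast; exact h)
  have h2 : 0 < Complex.normSq f := Complex.normSq_pos.mpr hf
  linarith

/-- The invariants of the recursion. -/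
structure Inv (t : ℂ) (N : ℕ) (u v : ℕ → ℂ) : Prop where
  uu : ∀ i j, i < j → j ≤ N → u i * conj (u j) ∈ K t
  vv : ∀ i j, i < j → j ≤ N → v i * conj (v j) ∈ K t
  uv : ∀ i j, i < j → j ≤ N → u i * conj (v j) ∈ K t
  iv : ∀ a b, b ≤ N → (∑ i ∈ Icc a b, u i) * conj (∑ i ∈ Icc a b, v i) ∈ K t
  u0 : u 0 ≠ 0
  v0 : v 0 ≠ 0

/-- Prefix sums. -/
def pre {R : Type*} [AddCommMonoid R] (u : ℕ → R) (j : ℕ) : R := ∑ i ∈ range (j + 1), u i

/-- Suffix sums. -/
def suf {R : Type*} [AddCommMonoid R] (N : ℕ) (v : ℕ → R) (j : ℕ) : R := ∑ i ∈ Ioc j N, v i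

lemma Inv.pre_suf {t : ℂ} {N : ℕ} {u v : ℕ → ℂ} (h : Inv t N u v) (q p : ℕ) (hq : q ≤ N) :
    pre u q * conj (suf N v p) ∈ K t := by
  unfold pre suf
  rcases le_or_gt q p with hqp | hpq
  · refine K_sum fun i hi j hj => ?_
    rw [mem_range] at hi
    rw [mem_Ioc] at hj
    exact h.uv i j (by omega) hj.2
  · -- split both sums
    have h1 : ∑ i ∈ range (q + 1), u i = ∑ i ∈ range (p + 1), u i + ∑ i ∈ Icc (p + 1) q, u i := by
      rw [← Finset.sum_union]
      · congr 1
        ext i; simp only [mem_range, mem_union, mem_Icc]; omega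
      · rw [Finset.disjoint_left]
        intro i; simp only [mem_range, mem_Icc]; omega
    have h2 : ∑ i ∈ Ioc p N, v i = ∑ i ∈ Icc (p + 1) q, v i + ∑ i ∈ Ioc q N, v i := by
      rw [← Finset.sum_union]
      · congr 1
        ext i; simp only [mem_Ioc, mem_union, mem_Icc]; omega
      · rw [Finset.disjoint_left]
        intro i; simp only [mem_Ioc, mem_Icc]; omega
    rw [h1, h2, map_add, add_mul, mul_add, mul_add]
    refine add_mem (add_mem ?_ ?_) (add_mem ?_ ?_)
    · refine K_sum fun i hi j hj => ?_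
      rw [mem_range] at hi
      rw [mem_Icc] at hj
      exact h.uv i j (by omega) (by omega)
    · refine K_sum fun i hi j hj => ?_
      rw [mem_range] at hi
      rw [mem_Ioc] at hj
      exact h.uv i j (by omega) (by omega)
    · exact h.iv _ _ hq
    · refine K_sum fun i hi j hj => ?_
      rw [mem_Icc] at hi
      rw [mem_Ioc] at hj
      exact h.uv i j (by omega) (by omega)

/-- One step of the recursion preserves the invariants. -/
lemma Inv.step {t : ℂ} (ht : t ∈ Complex.slitPlane) {N : ℕ} {u v : ℕ → ℂ}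
    (h : Inv t (N + 1) u v) :
    Inv t N (fun j => pre u j + t * suf (N + 1) v j) (pre u) := by
  have hpp : ∀ i j, i < j → j ≤ N → pre u i * conj (pre u j) ∈ K t := by
    intro i j hij hj
    have h1 : pre u j = pre u i + ∑ k ∈ Ioc i j, u k := by
      unfold pre
      rw [← Finset.sum_union]
      · congr 1
        ext k; simp only [mem_range, mem_union, mem_Ioc]; omega
      · rw [Finset.disjoint_left]
        intro k; simp only [mem_range, mem_Ioc]; omega
    rw [h1, map_add, mul_add]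
    refine add_mem (K_self _) ?_
    refine K_sum fun k hk l hl => ?_
    rw [mem_range] at hk
    rw [mem_Ioc] at hl
    exact h.uu k l (by omega) (by omega)
  refine ⟨?_, hpp, ?_, ?_, ?_, ?_⟩
  · intro i j hij hj
    -- notation
    set C : ℂ := pre u i + t * suf (N + 1) v j with hC
    set L : ℂ := ∑ k ∈ Ioc i j, u k with hL
    set M : ℂ := ∑ k ∈ Ioc i j, v k with hM
    have h1 : pre u j = pre u i + L := by
      unfold pre
      rw [hL, ← Finset.sum_union]
      · congr 1
        ext k; simp only [mem_range, mem_union, mem_Ioc]; omega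
      · rw [Finset.disjoint_left]
        intro k; simp only [mem_range, mem_Ioc]; omega
    have h2 : suf (N + 1) v i = suf (N + 1) v j + M := by
      unfold suf
      rw [hM, ← Finset.sum_union]
      · congr 1
        ext k; simp only [mem_union, mem_Ioc]; omega
      · rw [Finset.disjoint_left]
        intro k; simp only [mem_Ioc]; omega
    have hi' : pre u i + t * suf (N + 1) v i = C + t * M := by rw [h2, hC]; ring
    have hj' : pre u j + t * suf (N + 1) v j = C + L := by rw [h1, hC]; ring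
    show (pre u i + t * suf (N + 1) v i) * conj (pre u j + t * suf (N + 1) v j) ∈ K t
    rw [hi', hj', map_add, add_mul, mul_add, mul_add]
    have hAL : pre u i * conj L ∈ K t := by
      refine K_sum fun k hk l hl => ?_
      rw [mem_range] at hk
      rw [mem_Ioc] at hl
      exact h.uu k l (by omega) (by omega)
    have hLB : L * conj (suf (N + 1) v j) ∈ K t := by
      refine K_sum fun k hk l hl => ?_
      rw [mem_Ioc] at hk hl
      exact h.uv k l (by omega) (by omega)
    have hAM : pre u i * conj M ∈ K t := by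
      refine K_sum fun k hk l hl => ?_
      rw [mem_range] at hk
      rw [mem_Ioc] at hl
      exact h.uv k l (by omega) (by omega)
    have hMB : M * conj (suf (N + 1) v j) ∈ K t := by
      refine K_sum fun k hk l hl => ?_
      rw [mem_Ioc] at hk hl
      exact h.vv k l (by omega) (by omega)
    have hLM : L * conj M ∈ K t := by
      have := h.iv (i + 1) j (by omega)
      have hI : Icc (i + 1) j = Ioc i j := by
        ext k; simp only [mem_Icc, mem_Ioc]; omega
      rw [hI] at this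
      exact this
    refine add_mem (add_mem (K_self _) ?_) (add_mem ?_ ?_)
    · rw [hC, add_mul]
      exact add_mem hAL (K_swap hLB)
    · apply K_swap
      rw [hC, add_mul]
      exact add_mem hAM (K_swap hMB)
    · exact K_swap hLM
  · intro i j hij hj
    show (pre u i + t * suf (N + 1) v i) * conj (pre u j) ∈ K t
    rw [add_mul]
    exact add_mem (hpp i j hij hj) (K_swap (h.pre_suf j i (by omega)))
  · intro a b hb
    show (∑ i ∈ Icc a b, (pre u i + t * suf (N + 1) v i)) * conj (∑ i ∈ Icc a b, pre u i) ∈ K t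
    rw [Finset.sum_add_distrib, ← Finset.mul_sum, add_mul]
    refine add_mem (K_self _) (K_swap ?_)
    refine K_sum fun k hk l hl => ?_
    rw [mem_Icc] at hk hl
    exact h.pre_suf k l (by omega)
  · show pre u 0 + t * suf (N + 1) v 0 ≠ 0
    have h1 : pre u 0 = u 0 := by simp [pre]
    refine add_ne_zero_of_K ht (K_swap (h.pre_suf 0 0 (by omega))) ?_
    rw [h1]; exact h.u0
  · show pre u 0 ≠ 0
    have h1 : pre u 0 = u 0 := by simp [pre]
    rw [h1]; exact h.u0

/-- The invariants hold at the start. -/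
lemma Inv.start {t : ℂ} (N : ℕ) (h : ℕ → ℝ) (hh : ∀ i, 0 ≤ h i) (h0 : h 0 ≠ 0) :
    Inv t N (fun i => (h i : ℂ)) (fun i => (h i : ℂ)) := by
  have hm : ∀ i j, (h i : ℂ) * conj (h j : ℂ) ∈ K t := by
    intro i j
    rw [Complex.conj_ofReal, ← Complex.ofReal_mul]
    exact K_real (mul_nonneg (hh i) (hh j))
  refine ⟨fun i j _ _ => hm i j, fun i j _ _ => hm i j, fun i j _ _ => hm i j, ?_, ?_, ?_⟩
  · intro a b _
    exact K_sum fun i _ j _ => hm i j
  · show ((h 0 : ℝ) : ℂ) ≠ 0
    exact_mod_cast h0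
  · show ((h 0 : ℝ) : ℂ) ≠ 0
    exact_mod_cast h0

/-- The recursion. The flag chooses the final value. -/
def G (t : ℂ) : ℕ → (ℕ → ℂ) → (ℕ → ℂ) → ℂ × ℂ
  | 0, u, v => (u 0, v 0)
  | N + 1, u, v => G t N (fun j => pre u j + t * suf (N + 1) v j) (pre u)

lemma G_spec {t : ℂ} (ht : t ∈ Complex.slitPlane) : ∀ (N : ℕ) (u v : ℕ → ℂ), Inv t N u v →
    (G t N u v).1 * conj (G t N u v).2 ∈ K t ∧ (G t N u v).1 ≠ 0 ∧ (G t N u v).2 ≠ 0
  | 0, u, v, h => ⟨by simpa [G] using h.iv 0 0 le_rfl, h.u0, h.v0⟩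
  | N + 1, _, _, h => G_spec ht N _ _ (h.step ht)

end Pool.Agent.W_MP_308f9e_co
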