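import Pool.Agent.W_MP_308f9e_co.Gamma

open Finset Polynomial

namespace Pool.Agent.W_MP_308f9e_co

/-- The height of a finite set in the Boolean lattice is its cardinality. -/
lemma height_finset {α : Type*} (s : Finset α) : Order.height s = (s.card : ℕ∞) := by
  classical
  apply le_antisymm
  · have hmono : StrictMono (fun s : Finset α => s.card) := by
      intro a b hab
      exact Finset.card_lt_card hab
    have := Order.height_le_height_apply_of_strictMono _ hmono s
    simpa using this
  · suffices h : ∀ (n : ℕ) (s : Finset α), s.card = n → (n : ℕ∞) ≤ Order.height s from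
      h _ s rfl
    intro n
    induction n with
    | zero => intro s _; simp
    | succ n ih =>
      intro s hs
      have hne : s.Nonempty := by
        rw [← Finset.card_pos, hs]; omega
      obtain ⟨a, ha⟩ := hne
      have htc : (s.erase a).card = n := by
        rw [Finset.card_erase_of_mem ha, hs]; rfl
      have hlt : s.erase a < s := Finset.erase_ssubset ha
      calc ((n + 1 : ℕ) : ℕ∞) = (n : ℕ∞) + 1 := by push_cast; rfl
        _ ≤ Order.height (s.erase a) + 1 := by gcongr; exact ih _ htc
        _ ≤ Order.height s := Order.height_add_one_le hlt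

/-- The height in a principal lower set is the height. -/
lemma height_Iic {P : Type*} [PartialOrder P] (y : P) (z : Set.Iic y) :
    Order.height z = Order.height (z : P) := by
  refine Order.height_eq_of_strictMono (fun z : Set.Iic y => (z : P)) (fun _ _ h => h) ?_ z
  intro a b hab
  exact ⟨⟨b, hab.le.trans a.2⟩, hab, rfl⟩

/-- Locally Boolean posets. -/
def LB (P : Type*) [PartialOrder P] : Prop :=
  ∀ y : P, ∃ r : ℕ, Nonempty (Set.Iic y ≃o Finset (Fin r))

lemma height_of_iso {P : Type*} [PartialOrder P] {y : P} {r : ℕ}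
    (e : Set.Iic y ≃o Finset (Fin r)) : Order.height y = r := by
  have h1 : Order.height (⊤ : Set.Iic y) = Order.height y := height_Iic y ⊤
  have h2 := Order.height_orderIso e ⊤
  rw [map_top, h1, height_finset] at h2
  rw [← h2]
  simp

/-- Lower sets in the Boolean lattice. -/
noncomputable def iicIso {α : Type*} {r : ℕ} (g : Fin r ↪ α) (s : Finset α)
    (hs : Finset.univ.map g = s) : Set.Iic s ≃o Finset (Fin r) := by
  classical
  exact
  { toFun := fun s' => Finset.univ.filter (fun i => g i ∈ (s' : Finset α))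
    invFun := fun t => ⟨t.map g, by
      rw [← hs]
      exact Finset.map_subset_map.mpr (Finset.subset_univ t)⟩
    left_inv := by
      rintro ⟨s', hs'⟩
      apply Subtype.ext
      show Finset.map g (Finset.univ.filter (fun i => g i ∈ s')) = s'
      ext x
      simp only [Finset.mem_map, Finset.mem_filter, Finset.mem_univ, true_and]
      constructor
      · rintro ⟨i, hi, rfl⟩
        exact hi
      · intro hx
        have hxm : x ∈ s := hs' hx
        rw [← hs] at hxm
        obtain ⟨i, -, rfl⟩ := Finset.mem_map.mp hxm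
        exact ⟨i, hx, rfl⟩
    right_inv := by
      intro t
      show Finset.univ.filter (fun i => g i ∈ t.map g) = t
      ext i
      simp
    map_rel_iff' := by
      rintro ⟨s', hs'⟩ ⟨t, ht⟩
      show (Finset.univ.filter (fun i => g i ∈ s')) ⊆ (Finset.univ.filter (fun i => g i ∈ t)) ↔
        s' ⊆ t
      constructor
      · intro h x hx
        have hxm : x ∈ s := hs' hx
        rw [← hs] at hxm
        obtain ⟨i, -, rfl⟩ := Finset.mem_map.mp hxm
        have := @h i (by simpa using hx)
        simpa using this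
      · intro h i hi
        simp only [Finset.mem_filter, Finset.mem_univ, true_and] at hi ⊢
        exact h hi }

lemma LB_finset (α : Type*) : LB (Finset α) := by
  intro s
  refine ⟨s.card, ⟨iicIso (s.equivFin.symm.toEmbedding.trans (Function.Embedding.subtype _)) s ?_⟩⟩
  ext x
  simp only [mem_map, mem_univ, true_and, Function.Embedding.trans_apply, Equiv.coe_toEmbedding,
    Function.Embedding.subtype_apply]
  constructor
  · rintro ⟨i, rfl⟩
    exact (s.equivFin.symm i).2
  · intro hx
    exact ⟨s.equivFin ⟨x, hx⟩, by simp⟩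

/-- Lower sets in isomorphic posets. -/
def iicCongr {P Q : Type*} [PartialOrder P] [PartialOrder Q] (e : P ≃o Q) (y : P) :
    Set.Iic y ≃o Set.Iic (e y) where
  toFun z := ⟨e z, e.monotone z.2⟩
  invFun z := ⟨e.symm z, by
    have := e.symm.monotone z.2
    simpa using this⟩
  left_inv z := by simp
  right_inv z := by simp
  map_rel_iff' := by
    intro a b
    show e a ≤ e b ↔ a ≤ b
    simp

/-- Lower sets in an interval. -/
def iicIcc {P : Type*} [PartialOrder P] [OrderBot P] (m : P) (y : Set.Icc ⊥ m) :
    Set.Iic (y : P) ≃o Set.Iic y where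
  toFun z := ⟨⟨z, ⟨bot_le, z.2.trans y.2.2⟩⟩, z.2⟩
  invFun z := ⟨(z : Set.Icc ⊥ m), z.2⟩
  left_inv z := by simp
  right_inv z := by simp
  map_rel_iff' := by
    intro a b
    rfl

lemma LB_of_gradedSimplicial {P : Type*} [PartialOrder P] [OrderBot P] [Finite P] {n : ℕ}
    (hP : IsGradedSimplicial P n) : LB P := by
  intro y
  obtain ⟨m, hym, hm⟩ := (Set.finite_univ (α := P)).exists_le_maximal (Set.mem_univ y)
  have hm' : IsMax m := by
    intro z hz
    exact hm.2 (Set.mem_univ z) hz
  obtain ⟨e⟩ := hP m hm'
  let y' : Set.Icc (⊥ : P) m := ⟨y, bot_le, hym⟩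
  obtain ⟨r, ⟨e2⟩⟩ := LB_finset (Fin n) (e y')
  exact ⟨r, ⟨(iicIcc m y').trans ((iicCongr e y').trans e2)⟩⟩

/-- The set of chains counted by the flag `f`-vector. -/
def Ch (P : Type*) [PartialOrder P] [OrderBot P] (T : Finset ℕ) : Set (Finset P) :=
  {c : Finset P | ⊥ ∉ c ∧ IsChain (· ≤ ·) (c : Set P) ∧
    ∀ r : ℕ∞, (∃ t ∈ T, (t : ℕ∞) = r) ↔ ∃ y ∈ c, Order.height y = r}

lemma flagF_eq (P : Type*) [PartialOrder P] [OrderBot P] (T : Finset ℕ) :
    flagF P T = (Nat.card (Ch P T) : ℤ) := rfl

lemma flagF_empty (P : Type*) [PartialOrder P] [OrderBot P] : flagF P ∅ = 1 := by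
  have h : Ch P ∅ = {∅} := by
    ext c
    simp only [Ch, Set.mem_ofPred_eq, Set.mem_singleton_iff]
    constructor
    · rintro ⟨-, -, h⟩
      by_contra hne
      obtain ⟨y, hy⟩ := Finset.nonempty_iff_ne_empty.mpr hne
      obtain ⟨t, ht, -⟩ := (h (Order.height y)).mpr ⟨y, hy, rfl⟩
      simp at ht
    · rintro rfl
      simp
  rw [flagF_eq, h]
  simp

lemma map_mem_Ch {P Q : Type*} [PartialOrder P] [OrderBot P] [PartialOrder Q] [OrderBot Q]
    (e : P ≃o Q) (T : Finset ℕ) (c : Finset P) (hc : c ∈ Ch P T) :
    c.map e.toEquiv.toEmbedding ∈ Ch Q T := by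
  obtain ⟨h1, h2, h3⟩ := hc
  refine ⟨?_, ?_, ?_⟩
  · intro h
    rw [mem_map] at h
    obtain ⟨a, ha, hab⟩ := h
    have : a = ⊥ := by
      apply e.injective
      rw [map_bot]
      exact hab
    exact h1 (this ▸ ha)
  · intro x hx y hy hxy
    rw [mem_coe, mem_map] at hx hy
    obtain ⟨a, ha, rfl⟩ := hx
    obtain ⟨b, hb, rfl⟩ := hy
    have hab : a ≠ b := fun h => hxy (by rw [h])
    rcases h2 ha hb hab with h | h
    · left; exact e.monotone h
    · right; exact e.monotone h
  · intro r
    rw [h3 r]
    constructor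
    · rintro ⟨y, hy, rfl⟩
      exact ⟨e y, mem_map_of_mem _ hy, Order.height_orderIso e y⟩
    · rintro ⟨y, hy, rfl⟩
      rw [mem_map] at hy
      obtain ⟨a, ha, rfl⟩ := hy
      exact ⟨a, ha, (Order.height_orderIso e a).symm⟩

lemma flagF_congr {P Q : Type*} [PartialOrder P] [OrderBot P] [PartialOrder Q] [OrderBot Q]
    (e : P ≃o Q) (T : Finset ℕ) : flagF P T = flagF Q T := by
  rw [flagF_eq, flagF_eq]
  congr 1
  refine Nat.card_congr (Equiv.subtypeEquiv e.toEquiv.finsetCongr fun c => ?_)
  constructor
  · intro hc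
    exact map_mem_Ch e T c hc
  · intro hc
    have h1 := map_mem_Ch e.symm T _ hc
    have h2 : (e.toEquiv.finsetCongr c).map e.symm.toEquiv.toEmbedding = c := by
      ext x
      simp only [mem_map, Equiv.finsetCongr_apply]
      constructor
      · rintro ⟨a, ⟨b, hb, rfl⟩, rfl⟩
        simpa using hb
      · intro hx
        exact ⟨e x, ⟨x, hx, rfl⟩, by simp⟩
    rw [h2] at h1
    exact h1

/-- Adding a new top element to a chain below it. -/
lemma insert_mem_Ch {P : Type*} [PartialOrder P] [OrderBot P] [DecidableEq P] {n : ℕ}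
    {T : Finset ℕ} {y : P}
    (hy : Order.height y = ((n + 1 : ℕ) : ℕ∞)) {c : Finset (Set.Iic y)} (hc : c ∈ Ch (Set.Iic y) T) :
    insert y (c.map (Function.Embedding.subtype _)) ∈ Ch P (insert (n + 1) T) := by
  obtain ⟨h1, h2, h3⟩ := hc
  refine ⟨?_, ?_, ?_⟩
  · intro h
    rw [mem_insert, mem_map] at h
    rcases h with h | ⟨a, ha, hab⟩
    · rw [← h, Order.height_bot] at hy
      have : ((0 : ℕ) : ℕ∞) = ((n + 1 : ℕ) : ℕ∞) := by simpa using hy
      have := Nat.cast_injective this
      omega
    · have : a = ⊥ := Subtype.ext hab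
      exact h1 (this ▸ ha)
  · rw [coe_insert]
    refine IsChain.insert ?_ ?_
    · intro x hx z hz hxz
      rw [mem_coe, mem_map] at hx hz
      obtain ⟨a, ha, rfl⟩ := hx
      obtain ⟨b, hb, rfl⟩ := hz
      have hab : a ≠ b := fun h => hxz (by rw [h])
      exact h2 ha hb hab
    · intro b hb _
      rw [mem_coe, mem_map] at hb
      obtain ⟨a, ha, rfl⟩ := hb
      right
      exact a.2
  · intro r
    have h3' := h3 r
    simp only [mem_insert, exists_eq_or_imp, mem_map, Function.Embedding.subtype_apply]
    rw [h3', hy]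
    refine or_congr Iff.rfl ?_
    constructor
    · rintro ⟨z, hz, rfl⟩
      exact ⟨z, ⟨z, hz, rfl⟩, (height_Iic y z).symm⟩
    · rintro ⟨z, ⟨w, hw, rfl⟩, rfl⟩
      exact ⟨w, hw, height_Iic y w⟩

lemma flagF_insert {P : Type*} [PartialOrder P] [OrderBot P] [Finite P] {n : ℕ} {T : Finset ℕ}
    (hT : T ⊆ Icc 1 n) (hP : LB P) :
    flagF P (insert (n + 1) T) = rankNum P (n + 1) * flagF (Finset (Fin (n + 1))) T := by
  classical
  have hn1 : n + 1 ∉ T := fun h => by
    have := (mem_Icc.mp (hT h)).2; omega
  let Y := {y : P // Order.height y = ((n + 1 : ℕ) : ℕ∞)}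
  have : Fintype Y := Fintype.ofFinite Y
  have hfib : ∀ y : Y, flagF (Set.Iic (y : P)) T = flagF (Finset (Fin (n + 1))) T := by
    intro y
    obtain ⟨r, ⟨e⟩⟩ := hP y
    have h1 := height_of_iso e
    rw [y.2] at h1
    have h2 : n + 1 = r := Nat.cast_injective h1
    subst h2
    exact flagF_congr e T
  have hcard : Nat.card (Ch P (insert (n + 1) T))
      = Nat.card (Σ y : Y, Ch (Set.Iic (y : P)) T) := by
    symm
    refine Nat.card_eq_of_bijective (fun q =>
      (⟨insert (q.1 : P) (q.2.1.map (Function.Embedding.subtype _)),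
        insert_mem_Ch q.1.2 q.2.2⟩ : Ch P (insert (n + 1) T))) ⟨?_, ?_⟩
    · rintro ⟨⟨y1, hy1⟩, ⟨c1, hc1⟩⟩ ⟨⟨y2, hy2⟩, ⟨c2, hc2⟩⟩ heq
      have heq' : insert y1 (c1.map (Function.Embedding.subtype _))
          = insert y2 (c2.map (Function.Embedding.subtype _)) := congrArg Subtype.val heq
      have hnot : ∀ (y : P) (c : Finset (Set.Iic y)), c ∈ Ch (Set.Iic y) T →
          ∀ z : P, Order.height z = ((n + 1 : ℕ) : ℕ∞) →
          z ∉ c.map (Function.Embedding.subtype _) := by
        intro y c hc z hz hzc
        rw [mem_map] at hzc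
        obtain ⟨w, hw, rfl⟩ := hzc
        obtain ⟨t, ht, htw⟩ := (hc.2.2 (Order.height w)).mpr ⟨w, hw, rfl⟩
        rw [height_Iic] at htw
        have h4 : (t : ℕ∞) = ((n + 1 : ℕ) : ℕ∞) := htw.trans hz
        have := Nat.cast_injective h4
        subst this
        exact hn1 ht
      have h12 : y1 = y2 := by
        have : y1 ∈ insert y2 (c2.map (Function.Embedding.subtype _)) :=
          heq' ▸ mem_insert_self _ _
        rw [mem_insert] at this
        rcases this with h | h
        · exact h
        · exact absurd h (hnot y2 c2 hc2 y1 hy1)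
      subst h12
      have h5 : c1.map (Function.Embedding.subtype _) = c2.map (Function.Embedding.subtype _) := by
        have h6 := congrArg (fun s => s.erase y1) heq'
        simpa only [erase_insert (hnot y1 c1 hc1 y1 hy1), erase_insert (hnot y1 c2 hc2 y1 hy1)]
          using h6
      have h7 : c1 = c2 := Finset.map_injective _ h5
      subst h7
      rfl
    · rintro ⟨c, hc⟩
      obtain ⟨h1, h2, h3⟩ := hc
      obtain ⟨y, hyc, hy⟩ := (h3 ((n + 1 : ℕ) : ℕ∞)).mp ⟨n + 1, mem_insert_self _ _, rfl⟩
      -- the other elements are below `y`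
      have hbelow : ∀ z ∈ c, z ≠ y → z < y := by
        intro z hz hzy
        rcases h2 hz hyc hzy with h | h
        · exact lt_of_le_of_ne h hzy
        · exfalso
          have h4 : y < z := lt_of_le_of_ne h hzy.symm
          obtain ⟨t, ht, htz⟩ := (h3 (Order.height z)).mpr ⟨z, hz, rfl⟩
          have h5 := Order.height_add_one_le h4
          rw [← htz, hy] at h5
          have h6 : n + 1 + 1 ≤ t := by exact_mod_cast h5
          rw [mem_insert] at ht
          rcases ht with ht | ht
          · omega
          · have := (mem_Icc.mp (hT ht)).2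
            omega
      have hht : ∀ z ∈ c, z ≠ y → Order.height z ≠ ((n + 1 : ℕ) : ℕ∞) := by
        intro z hz hzy heq
        have h5 := Order.height_add_one_le (hbelow z hz hzy)
        rw [heq, hy] at h5
        have h6 : n + 1 + 1 ≤ n + 1 := by exact_mod_cast h5
        omega
      let c' : Finset (Set.Iic y) := (c.erase y).preimage Subtype.val
        (Subtype.val_injective.injOn)
      have hmemc' : ∀ w : Set.Iic y, w ∈ c' ↔ (w : P) ≠ y ∧ (w : P) ∈ c := by
        intro w
        simp [c', mem_preimage, mem_erase]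
      have hc' : c' ∈ Ch (Set.Iic y) T := by
        refine ⟨?_, ?_, ?_⟩
        · intro h
          exact h1 ((hmemc' _).mp h).2
        · intro a ha b hb hab
          rw [mem_coe, hmemc'] at ha hb
          exact h2 ha.2 hb.2 (fun h => hab (Subtype.ext h))
        · intro r
          constructor
          · rintro ⟨t, ht, rfl⟩
            obtain ⟨z, hz, hzt⟩ := (h3 t).mp ⟨t, mem_insert_of_mem ht, rfl⟩
            have hzy : z ≠ y := by
              rintro rfl
              rw [hy] at hzt
              have := Nat.cast_injective hzt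
              subst this
              exact hn1 ht
            refine ⟨⟨z, (hbelow z hz hzy).le⟩, (hmemc' _).mpr ⟨hzy, hz⟩, ?_⟩
            rw [height_Iic]
            exact hzt
          · rintro ⟨w, hw, rfl⟩
            rw [hmemc'] at hw
            rw [height_Iic]
            obtain ⟨t, ht, htw⟩ := (h3 (Order.height (w : P))).mpr ⟨w, hw.2, rfl⟩
            rw [mem_insert] at ht
            rcases ht with rfl | ht
            · exact absurd htw.symm (hht _ hw.2 hw.1)
            · exact ⟨t, ht, htw⟩
      refine ⟨⟨⟨y, hy⟩, ⟨c', hc'⟩⟩, ?_⟩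
      apply Subtype.ext
      show insert y (c'.map (Function.Embedding.subtype _)) = c
      ext z
      simp only [mem_insert, mem_map, Function.Embedding.subtype_apply]
      constructor
      · rintro (rfl | ⟨w, hw, rfl⟩)
        · exact hyc
        · exact ((hmemc' _).mp hw).2
      · intro hz
        by_cases hzy : z = y
        · exact Or.inl hzy
        · right
          exact ⟨⟨z, (hbelow z hz hzy).le⟩, (hmemc' _).mpr ⟨hzy, hz⟩, rfl⟩
  rw [flagF_eq, hcard, Nat.card_sigma]
  push_cast
  have h8 : ∀ y : Y, ((Nat.card (Ch (Set.Iic (y : P)) T) : ℕ) : ℤ)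
      = flagF (Finset (Fin (n + 1))) T := fun y => by
    rw [← hfib y, flagF_eq]
  rw [Finset.sum_congr rfl fun y _ => h8 y, Finset.sum_const, card_univ, nsmul_eq_mul]
  congr 1
  unfold rankNum
  rw [← Nat.card_eq_fintype_card]
  rfl

lemma rankNum_finset (m i : ℕ) : rankNum (Finset (Fin m)) i = (m.choose i : ℤ) := by
  unfold rankNum
  congr 1
  have h : {y : Finset (Fin m) | Order.height y = (i : ℕ∞)}
      = ((Finset.powersetCard i (Finset.univ : Finset (Fin m)) : Finset (Finset (Fin m))) :
        Set (Finset (Fin m))) := by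
    ext s
    simp only [Set.mem_ofPred_eq, mem_coe, mem_powersetCard, subset_univ, true_and]
    rw [height_finset]
    exact Nat.cast_inj
  rw [h, Set.ncard_coe_finset, card_powersetCard, card_univ, Fintype.card_fin]

lemma rankNum_zero (P : Type*) [PartialOrder P] [OrderBot P] : rankNum P 0 = 1 := by
  unfold rankNum
  have h : {y : P | Order.height y = ((0 : ℕ) : ℕ∞)} = {⊥} := by
    ext y
    simp only [Set.mem_ofPred_eq, Set.mem_singleton_iff, Nat.cast_zero, Order.height_eq_zero]
    exact isMin_iff_eq_bot
  rw [h]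
  simp

lemma flagF_finset : ∀ (n m : ℕ) (T : Finset ℕ), T ⊆ Icc 1 n →
    flagF (Finset (Fin m)) T = al n (fun i => (m.choose i : ℤ)) T
  | 0, m, T, hT => by
    have : T = ∅ := by
      apply Finset.subset_empty.mp
      simpa using hT
    subst this
    simp [flagF_empty, al]
  | n + 1, m, T, hT => by
    by_cases hn : n + 1 ∈ T
    · obtain ⟨T', hT'n, rfl⟩ : ∃ T', n + 1 ∉ T' ∧ T = insert (n + 1) T' :=
        ⟨T.erase (n + 1), notMem_erase _ _, (insert_erase hn).symm⟩
      have hT' : T' ⊆ Icc 1 n := by
        intro k hk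
        have h1 := mem_Icc.mp (hT (mem_insert_of_mem hk))
        have h2 : k ≠ n + 1 := fun h => hT'n (h ▸ hk)
        rw [mem_Icc]; omega
      rw [flagF_insert hT' (LB_finset _), rankNum_finset, flagF_finset n (n + 1) T' hT']
      simp only [al, mem_insert_self, if_true]
      congr 1
      refine al_set_congr _ _ _ _ fun k hk => ?_
      rw [mem_insert]
      constructor
      · exact Or.inr
      · rintro (h | h)
        · omega
        · exact h
    · have hT' : T ⊆ Icc 1 n := by
        intro k hk
        have h1 := mem_Icc.mp (hT hk)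
        have h2 : k ≠ n + 1 := fun h => hn (h ▸ hk)
        rw [mem_Icc]; omega
      rw [flagF_finset n m T hT']
      simp [al, hn]

theorem flagF_eq_al (P : Type*) [PartialOrder P] [OrderBot P] [Finite P] (hP : LB P) :
    ∀ (n : ℕ) (T : Finset ℕ), T ⊆ Icc 1 n → flagF P T = al n (rankNum P) T
  | 0, T, hT => by
    have : T = ∅ := by
      apply Finset.subset_empty.mp
      simpa using hT
    subst this
    simp [flagF_empty, al, rankNum_zero]
  | n + 1, T, hT => by
    by_cases hn : n + 1 ∈ T
    · obtain ⟨T', hT'n, rfl⟩ : ∃ T', n + 1 ∉ T' ∧ T = insert (n + 1) T' :=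
        ⟨T.erase (n + 1), notMem_erase _ _, (insert_erase hn).symm⟩
      have hT' : T' ⊆ Icc 1 n := by
        intro k hk
        have h1 := mem_Icc.mp (hT (mem_insert_of_mem hk))
        have h2 : k ≠ n + 1 := fun h => hT'n (h ▸ hk)
        rw [mem_Icc]; omega
      rw [flagF_insert hT' hP, flagF_finset n (n + 1) T' hT']
      simp only [al, mem_insert_self, if_true]
      congr 1
      refine al_set_congr _ _ _ _ fun k hk => ?_
      rw [mem_insert]
      constructor
      · exact Or.inr
      · rintro (h | h)
        · omega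
        · exact h
    · have hT' : T ⊆ Icc 1 n := by
        intro k hk
        have h1 := mem_Icc.mp (hT hk)
        have h2 : k ≠ n + 1 := fun h => hn (h ▸ hk)
        rw [mem_Icc]; omega
      rw [flagF_eq_al P hP n T hT']
      simp [al, hn]

theorem flagH_eq_bet (P : Type*) [PartialOrder P] [OrderBot P] [Finite P] {n : ℕ}
    (hP : IsGradedSimplicial P n) (S : Finset ℕ) (hS : S ⊆ Icc 1 n) :
    flagH P S = bet n S (fun i => (hPoly P n).coeff i) := by
  have h1 : flagH P S = Bt n (rankNum P) S := by
    unfold flagH Bt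
    refine Finset.sum_congr rfl fun T hT => ?_
    rw [flagF_eq_al P (LB_of_gradedSimplicial hP) n T ((mem_powerset.mp hT).trans hS)]
  rw [h1, Bt_eq_bet n _ S hS]
  rfl

end Pool.Agent.W_MP_308f9e_co
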