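import Pool.Agent.W_MP_308f9e_co.Example

/-!
# Two explicit counterexamples
-/

open Polynomial

namespace Pool.Agent.W_MP_308f9e_co

lemma filter_three : ((Finset.Icc 1 3).powerset.filter Isolated) =
    ({∅, {1}, {2}, {3}, {1, 3}} : Finset (Finset ℕ)) := by decide

lemma filter_four : ((Finset.Icc 2 4).powerset.filter Isolated) =
    ({∅, {2}, {3}, {4}, {2, 4}} : Finset (Finset ℕ)) := by decide

lemma not_realRooted_of_factor {p : ℝ[X]} {u v : ℝ} (h1 : -2 < u) (h2 : u < 2)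
    (hp : p = (X ^ 2 - C u * X + 1) * (X ^ 2 - C v * X + 1)) : ¬ RealRooted p := by
  intro hR
  obtain ⟨z, hz, h0⟩ := nonreal_root h1 h2
  apply hz
  apply hR
  rw [hp]
  simp only [map_mul, map_add, map_sub, map_pow, aeval_X, aeval_C, map_one,
    Complex.coe_algebraMap]
  rw [h0, zero_mul]

theorem disjointTriangles :
    IsSimplicialOfRank (TwoFacets ({0, 1, 2} : Finset (Fin 6)) {3, 4, 5}) 3 ∧
      chowAug (TwoFacets ({0, 1, 2} : Finset (Fin 6)) {3, 4, 5}) 3 =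
        X ^ 4 + 15 * X ^ 3 + 27 * X ^ 2 + 15 * X + 1 ∧
      ¬ RealRooted (chowAug (TwoFacets ({0, 1, 2} : Finset (Fin 6)) {3, 4, 5}) 3) := by
  have hP : IsSimplicialOfRank (TwoFacets ({0, 1, 2} : Finset (Fin 6)) {3, 4, 5}) 3 :=
    isSimplicial (by decide) (by decide)
  have r1 : rankCount (TwoFacets ({0, 1, 2} : Finset (Fin 6)) {3, 4, 5}) 1 = 6 := by
    rw [rankCount_two]; decide +kernel
  have r2 : rankCount (TwoFacets ({0, 1, 2} : Finset (Fin 6)) {3, 4, 5}) 2 = 6 := by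
    rw [rankCount_two]; decide +kernel
  have r3 : rankCount (TwoFacets ({0, 1, 2} : Finset (Fin 6)) {3, 4, 5}) 3 = 2 := by
    rw [rankCount_two]; decide +kernel
  have hH : chowAug (TwoFacets ({0, 1, 2} : Finset (Fin 6)) {3, 4, 5}) 3 =
      X ^ 4 + 15 * X ^ 3 + 27 * X ^ 2 + 15 * X + 1 := by
    rw [chowAug, filter_three]
    rw [Finset.sum_insert (by decide), Finset.sum_insert (by decide),
      Finset.sum_insert (by decide), Finset.sum_pair (by decide)]
    rw [flagH_empty, flagH_singleton hP, flagH_singleton hP, flagH_singleton hP,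
      flagH_pair hP (by norm_num), r1, r2, r3]
    simp only [Finset.card_empty, Finset.card_singleton,
      Finset.card_pair (show (1 : ℕ) ≠ 3 by decide)]
    have h5 : (C 5 : ℝ[X]) = 5 := map_ofNat C 5
    norm_num [Nat.choose, h5]
    ring
  refine ⟨hP, hH, ?_⟩
  have hs : (Real.sqrt 5) ^ 2 = 5 := Real.sq_sqrt (by norm_num)
  have hs0 : 0 ≤ Real.sqrt 5 := Real.sqrt_nonneg 5
  have hs1 : (11 : ℝ) / 5 < Real.sqrt 5 := by
    by_contra h
    push Not at h
    nlinarith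
  have hs2 : Real.sqrt 5 < 3 := by nlinarith
  refine not_realRooted_of_factor (u := -(15 - 5 * Real.sqrt 5) / 2)
    (v := -(15 + 5 * Real.sqrt 5) / 2) (by linarith) (by linarith) ?_
  rw [hH]
  have e1 : (C (-(15 - 5 * Real.sqrt 5) / 2) : ℝ[X]) + C (-(15 + 5 * Real.sqrt 5) / 2) = -15 := by
    rw [← C_add, show -(15 - 5 * Real.sqrt 5) / 2 + -(15 + 5 * Real.sqrt 5) / 2 = -15 by ring,
      C_neg, show (C 15 : ℝ[X]) = 15 from map_ofNat C 15]
  have e2 : (C (-(15 - 5 * Real.sqrt 5) / 2) : ℝ[X]) * C (-(15 + 5 * Real.sqrt 5) / 2) = 25 := by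
    rw [← C_mul, show -(15 - 5 * Real.sqrt 5) / 2 * (-(15 + 5 * Real.sqrt 5) / 2) = 25 by
      linear_combination (-(25 : ℝ) / 4) * hs, show (C 25 : ℝ[X]) = 25 from map_ofNat C 25]
  linear_combination (X ^ 3 + X) * e1 - X ^ 2 * e2

theorem tetrahedraAtVertex :
    IsSimplicialOfRank (TwoFacets ({0, 1, 2, 3} : Finset (Fin 7)) {3, 4, 5, 6}) 4 ∧
      chow (TwoFacets ({0, 1, 2, 3} : Finset (Fin 7)) {3, 4, 5, 6}) 4 =
        X ^ 4 + 23 * X ^ 3 + 43 * X ^ 2 + 23 * X + 1 ∧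
      ¬ RealRooted (chow (TwoFacets ({0, 1, 2, 3} : Finset (Fin 7)) {3, 4, 5, 6}) 4) := by
  have hP : IsSimplicialOfRank (TwoFacets ({0, 1, 2, 3} : Finset (Fin 7)) {3, 4, 5, 6}) 4 :=
    isSimplicial (by decide) (by decide)
  have r2 : rankCount (TwoFacets ({0, 1, 2, 3} : Finset (Fin 7)) {3, 4, 5, 6}) 2 = 12 := by
    rw [rankCount_two]; decide +kernel
  have r3 : rankCount (TwoFacets ({0, 1, 2, 3} : Finset (Fin 7)) {3, 4, 5, 6}) 3 = 8 := by
    rw [rankCount_two]; decide +kernel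
  have r4 : rankCount (TwoFacets ({0, 1, 2, 3} : Finset (Fin 7)) {3, 4, 5, 6}) 4 = 2 := by
    rw [rankCount_two]; decide +kernel
  have hH : chow (TwoFacets ({0, 1, 2, 3} : Finset (Fin 7)) {3, 4, 5, 6}) 4 =
      X ^ 4 + 23 * X ^ 3 + 43 * X ^ 2 + 23 * X + 1 := by
    rw [chow, filter_four]
    rw [Finset.sum_insert (by decide), Finset.sum_insert (by decide),
      Finset.sum_insert (by decide), Finset.sum_pair (by decide)]
    rw [flagH_empty, flagH_singleton hP, flagH_singleton hP, flagH_singleton hP,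
      flagH_pair hP (by norm_num), r2, r3, r4]
    simp only [Finset.card_empty, Finset.card_singleton,
      Finset.card_pair (show (2 : ℕ) ≠ 4 by decide)]
    have h7 : (C 7 : ℝ[X]) = 7 := map_ofNat C 7
    have h11 : (C 11 : ℝ[X]) = 11 := map_ofNat C 11
    norm_num [Nat.choose, h7, h11]
    ring
  refine ⟨hP, hH, ?_⟩
  have hs : (Real.sqrt 365) ^ 2 = 365 := Real.sq_sqrt (by norm_num)
  have hs0 : 0 ≤ Real.sqrt 365 := Real.sqrt_nonneg 365
  have hs1 : (19 : ℝ) < Real.sqrt 365 := by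
    by_contra h
    push Not at h
    nlinarith
  have hs2 : Real.sqrt 365 < 20 := by nlinarith
  refine not_realRooted_of_factor (u := (-23 + Real.sqrt 365) / 2)
    (v := (-23 - Real.sqrt 365) / 2) (by linarith) (by linarith) ?_
  rw [hH]
  have e1 : (C ((-23 + Real.sqrt 365) / 2) : ℝ[X]) + C ((-23 - Real.sqrt 365) / 2) = -23 := by
    rw [← C_add, show (-23 + Real.sqrt 365) / 2 + (-23 - Real.sqrt 365) / 2 = -23 by ring,
      C_neg, show (C 23 : ℝ[X]) = 23 from map_ofNat C 23]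
  have e2 : (C ((-23 + Real.sqrt 365) / 2) : ℝ[X]) * C ((-23 - Real.sqrt 365) / 2) = 41 := by
    rw [← C_mul, show (-23 + Real.sqrt 365) / 2 * ((-23 - Real.sqrt 365) / 2) = 41 by
      linear_combination (-(1 : ℝ) / 4) * hs, show (C 41 : ℝ[X]) = 41 from map_ofNat C 41]
  linear_combination (X ^ 3 + X) * e1 - X ^ 2 * e2

end Pool.Agent.W_MP_308f9e_co
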