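import Mathlib

open Polynomial

namespace Pool.Agent.W_MP_308f9e_co

/-- `P` is a graded simplicial poset of rank `n`: every maximal interval `[⊥, m]` is isomorphic
to the Boolean lattice of rank `n`. (Finiteness is a separate hypothesis.) -/
def IsGradedSimplicial (P : Type*) [PartialOrder P] [OrderBot P] (n : ℕ) : Prop :=
  ∀ m : P, IsMax m → Nonempty (Set.Icc (⊥ : P) m ≃o Finset (Fin n))

/-- The number of elements of `P` of rank `i`. The rank of an element is its height. -/
noncomputable def rankNum (P : Type*) [PartialOrder P] (i : ℕ) : ℤ :=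
  (Set.ncard {y : P | Order.height y = (i : ℕ∞)} : ℕ)

/-- The polynomial whose coefficients form the `h`-vector of `P`. -/
noncomputable def hPoly (P : Type*) [PartialOrder P] (n : ℕ) : ℤ[X] :=
  ∑ i ∈ Finset.range (n + 1), C (rankNum P i) * X ^ i * (1 - X) ^ (n - i)

/-- The flag `f`-vector of `P` with a new top adjoined: the number of chains of elements of `P`
other than `⊥` whose set of ranks is exactly `T`. -/
noncomputable def flagF (P : Type*) [PartialOrder P] [OrderBot P] (T : Finset ℕ) : ℤ :=
  (Set.ncard {c : Finset P | ⊥ ∉ c ∧ IsChain (· ≤ ·) (c : Set P) ∧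
    ∀ r : ℕ∞, (∃ t ∈ T, (t : ℕ∞) = r) ↔ ∃ y ∈ c, Order.height y = r} : ℕ)

/-- The flag `h`-vector. -/
noncomputable def flagH (P : Type*) [PartialOrder P] [OrderBot P] (S : Finset ℕ) : ℤ :=
  ∑ T ∈ S.powerset, (-1) ^ (S \ T).card * flagF P T

/-- A set of naturals is isolated if it contains no two consecutive numbers. -/
def Isolated (S : Finset ℕ) : Prop := ∀ i ∈ S, i + 1 ∉ S

instance : DecidablePred Isolated := fun S => by unfold Isolated; infer_instance

/-- The Chow polynomial of `P` with a new top adjoined, `P` of rank `n`. -/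
noncomputable def chow (P : Type*) [PartialOrder P] [OrderBot P] (n : ℕ) : ℤ[X] :=
  ∑ S ∈ (Finset.Icc 2 n).powerset.filter Isolated,
    C (flagH P S) * X ^ S.card * (1 + X) ^ (n - 2 * S.card)

/-- The augmented Chow polynomial of `P` with a new top adjoined, `P` of rank `n`. -/
noncomputable def augChow (P : Type*) [PartialOrder P] [OrderBot P] (n : ℕ) : ℤ[X] :=
  ∑ S ∈ (Finset.Icc 1 n).powerset.filter Isolated,
    C (flagH P S) * X ^ S.card * (1 + X) ^ (n + 1 - 2 * S.card)

/-- All complex roots are real. -/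
def RealRooted (f : ℤ[X]) : Prop := ∀ z : ℂ, aeval z f = 0 → z.im = 0

/-- `f` interlaces `g`: if `a` and `b` list all the real roots of `f` and `g` with multiplicity in
weakly decreasing order, then `b` has as many entries as `a` or one more, and
`b₁ ≥ a₁ ≥ b₂ ≥ a₂ ≥ ⋯`. -/
def Interlaces (f g : ℤ[X]) : Prop :=
  ∃ a b : List ℝ, a.Pairwise (· ≥ ·) ∧ b.Pairwise (· ≥ ·) ∧
    (a : Multiset ℝ) = (f.map (Int.castRingHom ℝ)).roots ∧
    (b : Multiset ℝ) = (g.map (Int.castRingHom ℝ)).roots ∧
    (b.length = a.length ∨ b.length = a.length + 1) ∧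
    (∀ i (hi : i < a.length) (hi' : i < b.length), a[i] ≤ b[i]) ∧
    (∀ i (hi : i < a.length) (hi' : i + 1 < b.length), b[i + 1] ≤ a[i])

end Pool.Agent.W_MP_308f9e_co
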