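import Pool.Agent.W_MP_308f9e_co.Defs

/-!
# Face posets of simplicial complexes with two facets
-/

namespace Pool.Agent.W_MP_308f9e_co

/-- The face poset (with the empty face) of the simplicial complex with facets `A` and `B`. -/
abbrev TwoFacets {N : ℕ} (A B : Finset (Fin N)) : Type :=
  {F : Finset (Fin N) // F ⊆ A ∨ F ⊆ B}

variable {N : ℕ} {A B : Finset (Fin N)}

instance : OrderBot (TwoFacets A B) where
  bot := ⟨∅, Or.inl (Finset.empty_subset _)⟩
  bot_le := fun F => Finset.empty_subset F.1

/-- The face poset is graded by the number of vertices. -/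
instance : GradeMinOrder ℕ (TwoFacets A B) where
  grade F := F.1.card
  grade_strictMono := fun _ _ h => Finset.card_lt_card h
  covBy_grade := by
    intro F G h
    obtain ⟨hlt, hcov⟩ := h
    have hss : F.1 ⊂ G.1 := hlt
    obtain ⟨v, hvG, hvF⟩ := Finset.exists_of_ssubset hss
    have hsub : insert v F.1 ⊆ G.1 := Finset.insert_subset hvG hss.1
    have hmem : insert v F.1 ⊆ A ∨ insert v F.1 ⊆ B := by
      rcases G.2 with h | h
      · exact Or.inl (hsub.trans h)
      · exact Or.inr (hsub.trans h)
    have h1 : F < ⟨insert v F.1, hmem⟩ := Finset.ssubset_insert hvF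
    have h2 := hcov h1
    have h3 : insert v F.1 = G.1 := by
      by_contra hne
      exact h2 (lt_of_le_of_ne hsub fun he => hne (congrArg Subtype.val he))
    rw [← h3, Finset.card_insert_of_notMem hvF]
    exact Order.covBy_add_one _
  isMin_grade := by
    intro F hF
    have : F = ⊥ := hF.eq_bot
    subst this
    intro b _
    exact Nat.zero_le b

end Pool.Agent.W_MP_308f9e_co
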