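import Pool.Agent.W_MP_308f9e_co.Defs
import Pool.Agent.W_MP_308f9e_co.Cone

open Finset Polynomial

namespace Pool.Agent.W_MP_308f9e_co

/-- Flag `h`-numbers from the `h`-vector. -/
def bet {R : Type*} [CommRing R] : ℕ → Finset ℕ → (ℕ → R) → R
  | 0, _, h => h 0
  | n + 1, S, h => if n + 1 ∈ S then bet n S (suf (n + 1) h) else bet n S (pre h)

section
variable {R : Type*} [CommRing R]

lemma bet_congr : ∀ (n : ℕ) (S : Finset ℕ) (h h' : ℕ → R), (∀ j ≤ n, h j = h' j) →
    bet n S h = bet n S h'
  | 0, _, h, h', H => H 0 le_rfl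
  | n + 1, S, h, h', H => by
    simp only [bet]
    split_ifs with hS
    · refine bet_congr n S _ _ fun j hj => ?_
      unfold suf
      refine Finset.sum_congr rfl fun i hi => H i (mem_Ioc.mp hi).2
    · refine bet_congr n S _ _ fun j hj => ?_
      unfold pre
      refine Finset.sum_congr rfl fun i hi => H i ?_
      have := mem_range.mp hi
      omega

lemma bet_set_congr : ∀ (n : ℕ) (S S' : Finset ℕ) (h : ℕ → R),
    (∀ k, k ≤ n → (k ∈ S ↔ k ∈ S')) → bet n S h = bet n S' h
  | 0, _, _, _, _ => rfl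
  | n + 1, S, S', h, H => by
    simp only [bet]
    rw [bet_set_congr n S S' _ fun k hk => H k (by omega),
      bet_set_congr n S S' _ fun k hk => H k (by omega)]
    simp only [H (n + 1) le_rfl]

lemma bet_lin (a b : R) : ∀ (n : ℕ) (S : Finset ℕ) (h h' : ℕ → R),
    bet n S (fun j => a * h j + b * h' j) = a * bet n S h + b * bet n S h'
  | 0, _, _, _ => rfl
  | n + 1, S, h, h' => by
    simp only [bet]
    split_ifs with hS
    · rw [← bet_lin a b n S]
      refine bet_congr _ _ _ _ fun j _ => ?_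
      simp only [suf, Finset.sum_add_distrib, Finset.mul_sum]
    · rw [← bet_lin a b n S]
      refine bet_congr _ _ _ _ fun j _ => ?_
      simp only [pre, Finset.sum_add_distrib, Finset.mul_sum]

lemma map_bet {R' : Type*} [CommRing R'] (φ : R →+* R') : ∀ (n : ℕ) (S : Finset ℕ) (h : ℕ → R),
    φ (bet n S h) = bet n S (fun j => φ (h j))
  | 0, _, _ => rfl
  | n + 1, S, h => by
    simp only [bet]
    split_ifs with hS
    · rw [map_bet φ n S]
      refine bet_congr _ _ _ _ fun j _ => ?_
      simp only [suf, map_sum]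
    · rw [map_bet φ n S]
      refine bet_congr _ _ _ _ fun j _ => ?_
      simp only [pre, map_sum]

end

/-- The sum over isolated sets. -/
def Fs (t : ℂ) (a n : ℕ) (u v : ℕ → ℂ) : ℂ :=
  ∑ S ∈ (Finset.Icc a n).powerset.filter Isolated,
    t ^ S.card * bet n S (if n ∈ S then v else u)

lemma isolated_insert {a n : ℕ} {S : Finset ℕ} (hS : S ⊆ Icc a n) :
    Isolated (insert (n + 1) S) ↔ Isolated S ∧ n ∉ S := by
  have hle : ∀ i ∈ S, i ≤ n := fun i hi => (mem_Icc.mp (hS hi)).2
  constructor
  · intro h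
    refine ⟨fun i hi hi' => h i (mem_insert_of_mem hi) (mem_insert_of_mem hi'), fun hn => ?_⟩
    exact h n (mem_insert_of_mem hn) (mem_insert_self _ _)
  · rintro ⟨h1, h2⟩ i hi hi'
    rw [mem_insert] at hi hi'
    rcases hi with rfl | hi
    · rcases hi' with hi' | hi'
      · omega
      · have := hle _ hi'; omega
    · rcases hi' with hi' | hi'
      · have : i = n := by omega
        subst this
        exact h2 hi
      · exact h1 i hi hi'

lemma Fs_succ (t : ℂ) (a n : ℕ) (ha : a ≤ n + 1) (u v : ℕ → ℂ) :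
    Fs t a (n + 1) u v = Fs t a n (fun j => pre u j + t * suf (n + 1) v j) (pre u) := by
  unfold Fs
  have hI : Icc a (n + 1) = insert (n + 1) (Icc a n) := by
    ext k; simp only [mem_Icc, mem_insert]; omega
  rw [Finset.sum_filter, Finset.sum_filter, hI, Finset.sum_powerset_insert (by simp),
    ← Finset.sum_add_distrib]
  refine Finset.sum_congr rfl fun S hS => ?_
  rw [mem_powerset] at hS
  have hn1 : n + 1 ∉ S := fun h => by
    have := (mem_Icc.mp (hS h)).2; omega
  have hb1 : bet (n + 1) S u = bet n S (pre u) := by simp [bet, hn1]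
  have hb2 : bet (n + 1) (insert (n + 1) S) v = bet n S (suf (n + 1) v) := by
    simp only [bet, mem_insert_self, if_true]
    refine bet_set_congr _ _ _ _ fun k hk => ?_
    rw [mem_insert]
    constructor
    · rintro (h | h)
      · omega
      · exact h
    · exact Or.inr
  simp only [isolated_insert hS, if_neg hn1, mem_insert_self, if_true, hb1, hb2,
    card_insert_of_notMem hn1]
  by_cases hiso : Isolated S
  · by_cases hn : n ∈ S
    · simp [hiso, hn]
    · simp only [hiso, hn, not_false_eq_true, and_self, if_true, if_false]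
      have := bet_lin (1 : ℂ) t n S (pre u) (suf (n + 1) v)
      simp only [one_mul] at this
      rw [this, pow_succ]
      ring
  · simp [hiso]

lemma Fs_one (t : ℂ) : ∀ (n : ℕ) (u v : ℕ → ℂ), Fs t 1 n u v = (G t n u v).1
  | 0, u, v => by
    have : (Finset.Icc 1 0).powerset.filter Isolated = {∅} := by decide
    unfold Fs
    rw [this, Finset.sum_singleton]
    simp [bet, G]
  | n + 1, u, v => by
    rw [Fs_succ t 1 n (by omega), Fs_one t n]
    rfl

lemma Fs_two (t : ℂ) : ∀ (n : ℕ) (u v : ℕ → ℂ), Fs t 2 (n + 1) u v = (G t (n + 1) u v).2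
  | 0, u, v => by
    have : (Finset.Icc 2 (0 + 1)).powerset.filter Isolated = {∅} := by decide
    unfold Fs
    rw [this, Finset.sum_singleton]
    simp [bet, G]
  | n + 1, u, v => by
    rw [Fs_succ t 2 (n + 1) (by omega), Fs_two t n]
    rfl

/-- Flag `f`-numbers of a locally Boolean poset. -/
def al : ℕ → (ℕ → ℤ) → Finset ℕ → ℤ
  | 0, φ, _ => φ 0
  | n + 1, φ, T => if n + 1 ∈ T then φ (n + 1) * al n (fun i => ((n + 1).choose i : ℤ)) T
      else al n φ T

lemma al_set_congr : ∀ (n : ℕ) (φ : ℕ → ℤ) (S S' : Finset ℕ),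
    (∀ k, k ≤ n → (k ∈ S ↔ k ∈ S')) → al n φ S = al n φ S'
  | 0, _, _, _, _ => rfl
  | n + 1, φ, S, S', H => by
    simp only [al]
    rw [al_set_congr n _ S S' fun k hk => H k (by omega),
      al_set_congr n φ S S' fun k hk => H k (by omega)]
    simp only [H (n + 1) le_rfl]

/-- The alternating sum. -/
def Bt (n : ℕ) (φ : ℕ → ℤ) (S : Finset ℕ) : ℤ := ∑ T ∈ S.powerset, (-1) ^ (S \ T).card * al n φ T

lemma Bt_succ_of_notMem (n : ℕ) (φ : ℕ → ℤ) (S : Finset ℕ) (hS : n + 1 ∉ S) :
    Bt (n + 1) φ S = Bt n φ S := by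
  unfold Bt
  refine Finset.sum_congr rfl fun T hT => ?_
  have : n + 1 ∉ T := fun h => hS (mem_powerset.mp hT h)
  simp [al, this]

lemma Bt_succ_insert (n : ℕ) (φ : ℕ → ℤ) (S : Finset ℕ) (hS : n + 1 ∉ S) :
    Bt (n + 1) φ (insert (n + 1) S)
      = φ (n + 1) * Bt n (fun i => ((n + 1).choose i : ℤ)) S - Bt n φ S := by
  unfold Bt
  rw [Finset.sum_powerset_insert hS, Finset.mul_sum, add_comm, sub_eq_add_neg,
    ← Finset.sum_neg_distrib]
  congr 1
  · refine Finset.sum_congr rfl fun T hT => ?_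
    rw [mem_powerset] at hT
    have h1 : insert (n + 1) S \ insert (n + 1) T = S \ T := by
      ext k
      simp only [mem_sdiff, mem_insert]
      constructor
      · rintro ⟨h | h, h'⟩
        · exact absurd (Or.inl h) h'
        · exact ⟨h, fun h2 => h' (Or.inr h2)⟩
      · rintro ⟨h, h'⟩
        refine ⟨Or.inr h, ?_⟩
        rintro (h2 | h2)
        · subst h2; exact hS h
        · exact h' h2
    have h2 : al n (fun i => ((n + 1).choose i : ℤ)) (insert (n + 1) T)
        = al n (fun i => ((n + 1).choose i : ℤ)) T := by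
      refine al_set_congr _ _ _ _ fun k hk => ?_
      rw [mem_insert]
      constructor
      · rintro (h | h)
        · omega
        · exact h
      · exact Or.inr
    rw [h1]
    simp only [al, mem_insert_self, if_true, h2]
    ring
  · refine Finset.sum_congr rfl fun T hT => ?_
    rw [mem_powerset] at hT
    have hnT : n + 1 ∉ T := fun h => hS (hT h)
    have h1 : insert (n + 1) S \ T = insert (n + 1) (S \ T) := by
      rw [Finset.insert_sdiff_of_notMem _ hnT]
    have h2 : n + 1 ∉ S \ T := fun h => hS (mem_sdiff.mp h).1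
    rw [h1, card_insert_of_notMem h2]
    simp only [al, hnT, if_false, pow_succ]
    ring

/-- The `h`-polynomial of a sequence. -/
noncomputable def hp (n : ℕ) (φ : ℕ → ℤ) : ℤ[X] :=
  ∑ i ∈ Finset.range (n + 1), C (φ i) * X ^ i * (1 - X) ^ (n - i)

lemma hp_succ (n : ℕ) (φ : ℕ → ℤ) :
    hp (n + 1) φ = (1 - X) * hp n φ + C (φ (n + 1)) * X ^ (n + 1) := by
  unfold hp
  rw [Finset.sum_range_succ, Finset.mul_sum]
  congr 1
  · refine Finset.sum_congr rfl fun i hi => ?_
    have : n + 1 - i = (n - i) + 1 := by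
      have := mem_range.mp hi; omega
    rw [this, pow_succ]
    ring
  · simp

lemma pre_coeff_one_sub_X_mul (p : ℤ[X]) (j : ℕ) :
    pre (fun i => ((1 - X) * p).coeff i) j = p.coeff j := by
  unfold pre
  induction j with
  | zero => simp [sub_mul]
  | succ j ih =>
    rw [Finset.sum_range_succ, ih]
    simp [sub_mul, coeff_X_mul]

lemma hp_natDegree_lt (n : ℕ) (φ : ℕ → ℤ) : (hp n φ).coeff (n + 1) = 0 := by
  unfold hp
  rw [Polynomial.finsetSum_coeff]
  refine Finset.sum_eq_zero fun i hi => ?_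
  apply coeff_eq_zero_of_natDegree_lt
  have hi' := mem_range.mp hi
  have h1 : (C (φ i) * X ^ i * (1 - X) ^ (n - i) : ℤ[X]).natDegree
      ≤ (C (φ i) * X ^ i : ℤ[X]).natDegree + ((1 - X) ^ (n - i) : ℤ[X]).natDegree :=
    natDegree_mul_le
  have h2 : (C (φ i) * X ^ i : ℤ[X]).natDegree ≤ i := natDegree_C_mul_X_pow_le _ _
  have h3 : ((1 - X) ^ (n - i) : ℤ[X]).natDegree ≤ (n - i) * 1 := by
    refine natDegree_pow_le_of_le _ ?_
    refine (natDegree_sub_le _ _).trans ?_
    simp
  omega

lemma pre_hp_succ (n : ℕ) (φ : ℕ → ℤ) (j : ℕ) (hj : j ≤ n) :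
    pre (fun i => (hp (n + 1) φ).coeff i) j = (hp n φ).coeff j := by
  rw [← pre_coeff_one_sub_X_mul (hp n φ) j]
  unfold pre
  refine Finset.sum_congr rfl fun i hi => ?_
  have hi' := mem_range.mp hi
  show (hp (n + 1) φ).coeff i = ((1 - X) * hp n φ).coeff i
  rw [hp_succ, coeff_add, coeff_C_mul, coeff_X_pow, if_neg (by omega)]
  simp

lemma pre_hp_top (n : ℕ) (φ : ℕ → ℤ) :
    pre (fun i => (hp (n + 1) φ).coeff i) (n + 1) = φ (n + 1) := by
  have h1 := pre_hp_succ n φ n le_rfl
  have h2 : (hp (n + 1) φ).coeff (n + 1) = φ (n + 1) - (hp n φ).coeff n := by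
    rw [hp_succ, coeff_add, coeff_C_mul, coeff_X_pow, if_pos rfl, sub_mul, one_mul, coeff_sub,
      coeff_X_mul, hp_natDegree_lt]
    ring
  unfold pre at h1 ⊢
  rw [Finset.sum_range_succ, h1, h2]
  ring

lemma hp_choose (n : ℕ) (j : ℕ) (hj : j ≤ n) :
    (hp n (fun i => ((n + 1).choose i : ℤ))).coeff j = 1 := by
  rw [← pre_hp_succ n _ j hj]
  have h1 : hp (n + 1) (fun i => ((n + 1).choose i : ℤ)) = 1 := by
    unfold hp
    have := add_pow (X : ℤ[X]) (1 - X) (n + 1)
    rw [add_sub_cancel, one_pow] at this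
    refine Eq.trans ?_ this.symm
    refine Finset.sum_congr rfl fun i _ => ?_
    rw [map_natCast]
    ring
  rw [h1]
  unfold pre
  simp [coeff_one]

lemma suf_eq (n : ℕ) (h : ℕ → ℤ) (j : ℕ) (hj : j ≤ n) : suf n h j = pre h n - pre h j := by
  unfold suf pre
  have h1 : range (n + 1) = range (j + 1) ∪ Ioc j n := by
    ext k; simp only [mem_range, mem_union, mem_Ioc]; omega
  rw [h1, Finset.sum_union]
  · ring
  · rw [Finset.disjoint_left]
    intro i; simp only [mem_range, mem_Ioc]; omega

theorem Bt_eq_bet : ∀ (n : ℕ) (φ : ℕ → ℤ) (S : Finset ℕ), S ⊆ Icc 1 n →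
    Bt n φ S = bet n S (fun i => (hp n φ).coeff i)
  | 0, φ, S, hS => by
    have : S = ∅ := by
      apply Finset.subset_empty.mp
      simpa using hS
    subst this
    simp [Bt, al, bet, hp]
  | n + 1, φ, S, hS => by
    by_cases hn : n + 1 ∈ S
    · obtain ⟨S', hS'n, rfl⟩ : ∃ S', n + 1 ∉ S' ∧ S = insert (n + 1) S' :=
        ⟨S.erase (n + 1), notMem_erase _ _, (insert_erase hn).symm⟩
      have hS' : S' ⊆ Icc 1 n := by
        intro k hk
        have h1 := mem_Icc.mp (hS (mem_insert_of_mem hk))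
        have h2 : k ≠ n + 1 := fun h => hS'n (h ▸ hk)
        rw [mem_Icc]; omega
      rw [Bt_succ_insert n φ S' hS'n, Bt_eq_bet n _ S' hS', Bt_eq_bet n φ S' hS']
      have h1 : bet (n + 1) (insert (n + 1) S') (fun i => (hp (n + 1) φ).coeff i)
          = bet n S' (suf (n + 1) (fun i => (hp (n + 1) φ).coeff i)) := by
        simp only [bet, mem_insert_self, if_true]
        refine bet_set_congr _ _ _ _ fun k hk => ?_
        rw [mem_insert]
        constructor
        · rintro (h | h)
          · omega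
          · exact h
        · exact Or.inr
      rw [h1]
      have h2 := bet_lin (φ (n + 1)) (-1) n S'
        (fun i => (hp n (fun i => ((n + 1).choose i : ℤ))).coeff i) (fun i => (hp n φ).coeff i)
      rw [show φ (n + 1) * bet n S' (fun i => (hp n fun i => ((n + 1).choose i : ℤ)).coeff i)
          - bet n S' (fun i => (hp n φ).coeff i)
          = φ (n + 1) * bet n S' (fun i => (hp n fun i => ((n + 1).choose i : ℤ)).coeff i)
          + -1 * bet n S' (fun i => (hp n φ).coeff i) by ring, ← h2]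
      refine bet_congr _ _ _ _ fun j hj => ?_
      rw [suf_eq _ _ _ (by omega), pre_hp_top, pre_hp_succ n φ j hj, hp_choose n j hj]
      ring
    · have hS' : S ⊆ Icc 1 n := by
        intro k hk
        have h1 := mem_Icc.mp (hS hk)
        have h2 : k ≠ n + 1 := fun h => hn (h ▸ hk)
        rw [mem_Icc]; omega
      rw [Bt_succ_of_notMem n φ S hn, Bt_eq_bet n φ S hS']
      simp only [bet, hn, if_false]
      refine bet_congr _ _ _ _ fun j hj => ?_
      rw [pre_hp_succ n φ j hj]

end Pool.Agent.W_MP_308f9e_co
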