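import Mathlib

open ComplexConjugate Filter Topology

namespace Pool.Agent.W_MP_308f9e_co

/-- The total argument. -/
noncomputable def Th (l : List ℝ) (z : ℂ) : ℝ := (l.map (fun b : ℝ => Complex.arg (z - b))).sum

/-- The product over the roots. -/
noncomputable def Pr (l : List ℝ) (z : ℂ) : ℂ := (l.map (fun b : ℝ => z - b)).prod

lemma sub_mem_slitPlane {z : ℂ} (hz : 0 < z.im) (b : ℝ) : z - b ∈ Complex.slitPlane := by
  rw [Complex.mem_slitPlane_iff]
  right
  simp
  exact hz.ne'

lemma Pr_eq (l : List ℝ) (z : ℂ) : Pr l z = ‖Pr l z‖ * Complex.exp (Th l z * Complex.I) := by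
  induction l with
  | nil => simp [Pr, Th]
  | cons b l ih =>
    have h1 : Pr (b :: l) z = (z - b) * Pr l z := by simp [Pr]
    have h2 : Th (b :: l) z = Complex.arg (z - b) + Th l z := by simp [Th]
    rw [h1, h2, norm_mul]
    conv_lhs => rw [ih, ← Complex.norm_mul_exp_arg_mul_I (z - b)]
    push_cast
    rw [add_mul, Complex.exp_add]
    ring

lemma Pr_ne_zero (l : List ℝ) {z : ℂ} (hz : 0 < z.im) : Pr l z ≠ 0 := by
  induction l with
  | nil => simp [Pr]
  | cons b l ih =>
    have h1 : Pr (b :: l) z = (z - b) * Pr l z := by simp [Pr]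
    rw [h1]
    exact mul_ne_zero (Complex.slitPlane_ne_zero (sub_mem_slitPlane hz b)) ih

lemma im_Pr_mul_conj (a b : List ℝ) (z : ℂ) :
    (Pr b z * conj (Pr a z)).im = ‖Pr b z‖ * ‖Pr a z‖ * Real.sin (Th b z - Th a z) := by
  have h : Pr b z * conj (Pr a z)
      = ((‖Pr b z‖ * ‖Pr a z‖ : ℝ) : ℂ) * Complex.exp (((Th b z - Th a z : ℝ) : ℂ) * Complex.I) := by
    conv_lhs => rw [Pr_eq b z, Pr_eq a z]
    rw [map_mul, ← Complex.exp_conj, map_mul, Complex.conj_ofReal, Complex.conj_ofReal,
      Complex.conj_I]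
    push_cast
    rw [sub_mul, Complex.exp_sub, mul_neg, Complex.exp_neg]
    ring
  rw [h, Complex.im_ofReal_mul, Complex.exp_ofReal_mul_I_im]

lemma continuousOn_Th (l : List ℝ) : ContinuousOn (Th l) {z : ℂ | 0 < z.im} := by
  induction l with
  | nil => simpa [Th] using! (continuousOn_const : ContinuousOn (fun _ : ℂ => (0 : ℝ)) _)
  | cons b l ih =>
    have h2 : Th (b :: l) = fun z => Complex.arg (z - b) + Th l z := by
      funext z; simp [Th]
    rw [h2]
    refine ContinuousOn.add ?_ ih
    intro z hz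
    have hc : ContinuousAt (fun z : ℂ => Complex.arg (z - b)) z := by
      have := Complex.continuousAt_arg (sub_mem_slitPlane hz b)
      exact ContinuousAt.comp (f := fun z : ℂ => z - b) (g := Complex.arg) this
        (continuousAt_id.sub continuousAt_const)
    exact hc.continuousWithinAt

lemma tendsto_Th_atTop (l : List ℝ) :
    Tendsto (fun R : ℝ => Th l ((R : ℂ) + Complex.I)) atTop (𝓝 0) := by
  induction l with
  | nil => simp [Th]
  | cons b l ih =>
    have h2 : ∀ z, Th (b :: l) z = Complex.arg (z - b) + Th l z := by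
      intro z; simp [Th]
    simp only [h2]
    rw [show (0 : ℝ) = 0 + 0 by simp]
    refine Tendsto.add ?_ ih
    have h3 : Tendsto (fun R : ℝ => Complex.arg (1 + ((R⁻¹ : ℝ) : ℂ) * (Complex.I - b))) atTop
        (𝓝 0) := by
      have h4 : Tendsto (fun R : ℝ => 1 + ((R⁻¹ : ℝ) : ℂ) * (Complex.I - b)) atTop (𝓝 1) := by
        have h5 : Tendsto (fun R : ℝ => ((R⁻¹ : ℝ) : ℂ)) atTop (𝓝 0) := by
          have h8 := (Complex.continuous_ofReal.tendsto 0).comp
            (tendsto_inv_atTop_zero (𝕜 := ℝ))
          rw [Complex.ofReal_zero] at h8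
          exact h8
        have := (tendsto_const_nhds (x := (1 : ℂ))).add (h5.mul_const (Complex.I - (b : ℂ)))
        simpa using this
      have h6 : ContinuousAt Complex.arg 1 := Complex.continuousAt_arg (by simp)
      have := h6.tendsto.comp h4
      simpa using! this
    refine h3.congr' ?_
    filter_upwards [eventually_gt_atTop 0] with R hR
    have hR' : (R : ℂ) ≠ 0 := by exact_mod_cast hR.ne'
    have h7 : (R : ℂ) + Complex.I - b = (R : ℂ) * (1 + ((R⁻¹ : ℝ) : ℂ) * (Complex.I - b)) := by
      push_cast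
      field_simp
      ring
    rw [h7, Complex.arg_real_mul _ hR]

lemma tendsto_Th_real (l : List ℝ) (c : ℝ) (hc : c ∉ l) :
    Tendsto (fun ε : ℝ => Th l ((c : ℂ) + ε * Complex.I)) (𝓝[>] 0)
      (𝓝 (Real.pi * (l.countP (fun x => decide (c < x)) : ℝ))) := by
  induction l with
  | nil => simp [Th]
  | cons b l ih =>
    have h2 : ∀ z, Th (b :: l) z = Complex.arg (z - b) + Th l z := by
      intro z; simp [Th]
    simp only [h2]
    have hcb : c ≠ b := fun h => hc (by simp [h])
    have hcl : c ∉ l := fun h => hc (by simp [h])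
    have h3 : (((b :: l).countP (fun x => decide (c < x)) : ℕ) : ℝ)
        = (if c < b then 1 else 0) + (l.countP (fun x => decide (c < x)) : ℝ) := by
      rw [List.countP_cons]
      push_cast
      split_ifs <;> simp_all [add_comm]
    rw [h3, mul_add]
    refine Tendsto.add ?_ (ih hcl)
    have h4 : Tendsto (fun ε : ℝ => (c : ℂ) + ε * Complex.I - b) (𝓝[>] 0)
        (𝓝 ((c - b : ℝ) : ℂ)) := by
      have : Continuous (fun ε : ℝ => (c : ℂ) + ε * Complex.I - b) := by fun_prop
      have h5 := this.tendsto 0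
      have h6 := h5.mono_left (nhdsWithin_le_nhds (s := Set.Ioi 0))
      simpa using! h6
    rcases lt_or_gt_of_ne hcb with h | h
    · rw [if_pos h, mul_one]
      have h5 := Complex.tendsto_arg_nhdsWithin_im_nonneg_of_re_neg_of_im_zero
        (z := ((c - b : ℝ) : ℂ)) (by simpa using h) (by simp)
      refine h5.comp ?_
      rw [tendsto_nhdsWithin_iff]
      refine ⟨h4, ?_⟩
      filter_upwards [self_mem_nhdsWithin] with ε hε
      have : 0 < ε := hε
      simp
      exact this.le
    · rw [if_neg h.not_gt, mul_zero]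
      have h5 : ContinuousAt Complex.arg ((c - b : ℝ) : ℂ) := by
        apply Complex.continuousAt_arg
        rw [Complex.mem_slitPlane_iff]
        left
        simpa using h
      have h6 := h5.tendsto.comp h4
      rw [Complex.arg_ofReal_of_nonneg (by linarith : (0 : ℝ) ≤ c - b)] at h6
      exact h6

lemma Th_mem (a b : List ℝ)
    (h : ∀ z : ℂ, 0 < z.im → 0 ≤ (Pr b z * conj (Pr a z)).im) (z : ℂ) (hz : 0 < z.im) :
    Th b z - Th a z ∈ Set.Icc 0 Real.pi := by
  have hsin : ∀ z : ℂ, 0 < z.im → 0 ≤ Real.sin (Th b z - Th a z) := by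
    intro z hz
    have h1 := h z hz
    rw [im_Pr_mul_conj] at h1
    have h2 : 0 < ‖Pr b z‖ * ‖Pr a z‖ :=
      mul_pos (norm_pos_iff.mpr (Pr_ne_zero b hz)) (norm_pos_iff.mpr (Pr_ne_zero a hz))
    by_contra hneg
    push Not at hneg
    have := mul_neg_of_pos_of_neg h2 hneg
    linarith
  have hconn : IsPreconnected ((fun z => Th b z - Th a z) '' {z : ℂ | 0 < z.im}) := by
    refine IsPreconnected.image ?_ _ ((continuousOn_Th b).sub (continuousOn_Th a))
    exact (convex_halfSpace_im_gt 0).isPreconnected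
  have hord := hconn.ordConnected
  -- a point where the angle is small
  obtain ⟨z1, hz1, hz1s⟩ : ∃ z1 : ℂ, 0 < z1.im ∧ |Th b z1 - Th a z1| < Real.pi / 2 := by
    have h1 := (tendsto_Th_atTop b).sub (tendsto_Th_atTop a)
    rw [sub_zero] at h1
    have h2 := h1.eventually (Metric.ball_mem_nhds 0 (by positivity : 0 < Real.pi / 2))
    obtain ⟨R, hR⟩ := h2.exists
    refine ⟨(R : ℂ) + Complex.I, by simp, ?_⟩
    simpa [Real.dist_eq] using hR
  have hpi := Real.pi_pos
  rw [abs_lt] at hz1s
  have hz1nn : 0 ≤ Th b z1 - Th a z1 := by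
    by_contra hneg
    push Not at hneg
    have := Real.sin_neg_of_neg_of_neg_pi_lt hneg (by linarith)
    have := hsin z1 hz1
    linarith
  have hmem : ∀ w, w ∈ Set.uIcc (Th b z - Th a z) (Th b z1 - Th a z1) → 0 ≤ Real.sin w := by
    intro w hw
    have h1 := hord.uIcc_subset (Set.mem_image_of_mem _ hz) (Set.mem_image_of_mem _ hz1) hw
    obtain ⟨y, hy, rfl⟩ := h1
    exact hsin y hy
  constructor
  · by_contra hneg
    push Not at hneg
    have h1 := hmem (max (Th b z - Th a z) (-(Real.pi / 2))) (by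
      rw [Set.uIcc_of_le (by linarith)]
      exact ⟨le_max_left _ _, by apply max_le <;> linarith⟩)
    have h2 := Real.sin_neg_of_neg_of_neg_pi_lt
      (x := max (Th b z - Th a z) (-(Real.pi / 2))) (by apply max_lt <;> linarith)
      (by apply lt_max_of_lt_right; linarith)
    linarith
  · by_contra hneg
    push Not at hneg
    have h1 := hmem (min (Th b z - Th a z) (3 * Real.pi / 2)) (by
      rw [Set.uIcc_of_ge (by linarith)]
      exact ⟨by apply le_min <;> linarith, min_le_left _ _⟩)
    have h2 := Real.sin_neg_of_neg_of_neg_pi_lt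
      (x := min (Th b z - Th a z) (3 * Real.pi / 2) - 2 * Real.pi) (by
        have := min_le_right (Th b z - Th a z) (3 * Real.pi / 2)
        linarith)
      (by
        have : Real.pi < min (Th b z - Th a z) (3 * Real.pi / 2) := by
          apply lt_min <;> linarith
        linarith)
    rw [Real.sin_sub_two_pi] at h2
    linarith

lemma count_le (a b : List ℝ)
    (h : ∀ z : ℂ, 0 < z.im → 0 ≤ (Pr b z * conj (Pr a z)).im) (c : ℝ) (hca : c ∉ a)
    (hcb : c ∉ b) :
    a.countP (fun x => decide (c < x)) ≤ b.countP (fun x => decide (c < x)) ∧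
    b.countP (fun x => decide (c < x)) ≤ a.countP (fun x => decide (c < x)) + 1 := by
  have h1 := (tendsto_Th_real b c hcb).sub (tendsto_Th_real a c hca)
  have h2 : ∀ᶠ ε : ℝ in 𝓝[>] 0, Th b ((c : ℂ) + ε * Complex.I) - Th a ((c : ℂ) + ε * Complex.I)
      ∈ Set.Icc 0 Real.pi := by
    filter_upwards [self_mem_nhdsWithin] with ε hε
    apply Th_mem a b h
    have : 0 < ε := hε
    simpa using this
  have h3 := isClosed_Icc.mem_of_tendsto h1 h2
  have hpi := Real.pi_pos
  rw [← mul_sub] at h3
  obtain ⟨h4, h5⟩ := h3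
  have h6 : (0 : ℝ) ≤ (b.countP (fun x => decide (c < x)) : ℝ)
      - (a.countP (fun x => decide (c < x)) : ℝ) := by
    by_contra hneg
    push Not at hneg
    have := mul_neg_of_pos_of_neg hpi hneg
    linarith
  have h7 : (b.countP (fun x => decide (c < x)) : ℝ)
      - (a.countP (fun x => decide (c < x)) : ℝ) ≤ 1 := by
    by_contra hneg
    push Not at hneg
    have := mul_lt_mul_of_pos_left hneg hpi
    linarith
  constructor
  · have : (a.countP (fun x => decide (c < x)) : ℝ) ≤ (b.countP (fun x => decide (c < x)) : ℝ) := by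
      linarith
    exact_mod_cast this
  · have : (b.countP (fun x => decide (c < x)) : ℝ)
        ≤ (a.countP (fun x => decide (c < x)) : ℝ) + 1 := by
      linarith
    exact_mod_cast this

lemma le_countP {l : List ℝ} (hl : l.Pairwise (· ≥ ·)) {i : ℕ} (hi : i < l.length) {c : ℝ}
    (h : c < l[i]) : i + 1 ≤ l.countP (fun x => decide (c < x)) := by
  have h1 : (l.take (i + 1)).countP (fun x => decide (c < x)) = (l.take (i + 1)).length := by
    rw [List.countP_eq_length]
    intro x hx
    rw [List.mem_take_iff_getElem] at hx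
    obtain ⟨j, hj, rfl⟩ := hx
    rw [decide_eq_true_eq]
    have hji : j ≤ i := by omega
    rcases hji.lt_or_eq with h2 | h2
    · exact lt_of_lt_of_le h (List.pairwise_iff_getElem.mp hl j i (by omega) hi h2)
    · subst h2; exact h
  have h2 : (l.take (i + 1)).length = i + 1 := by
    rw [List.length_take]; omega
  rw [← h2, ← h1]
  exact (List.take_sublist _ _).countP_le

lemma countP_le {l : List ℝ} (hl : l.Pairwise (· ≥ ·)) {i : ℕ} (hi : i < l.length) {c : ℝ}
    (h : l[i] ≤ c) : l.countP (fun x => decide (c < x)) ≤ i := by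
  have h1 : (l.drop i).countP (fun x => decide (c < x)) = 0 := by
    rw [List.countP_eq_zero]
    intro x hx
    rw [List.mem_drop_iff_getElem] at hx
    obtain ⟨j, hj, rfl⟩ := hx
    rw [decide_eq_true_eq, not_lt]
    rcases Nat.eq_zero_or_pos j with h2 | h2
    · subst h2; simpa using h
    · exact le_trans (List.pairwise_iff_getElem.mp hl i (i + j) hi (by omega) (by omega)) h
  conv_lhs => rw [← List.take_append_drop i l]
  rw [List.countP_append, h1, add_zero]
  refine (List.countP_le_length).trans ?_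
  rw [List.length_take]
  exact min_le_left _ _

/-- Interlacing from the sign of the imaginary part. -/
theorem interlace_of_im (a b : List ℝ) (ha : a.Pairwise (· ≥ ·)) (hb : b.Pairwise (· ≥ ·))
    (h : ∀ z : ℂ, 0 < z.im → 0 ≤ (Pr b z * conj (Pr a z)).im) :
    (∀ i (hi : i < a.length) (hi' : i < b.length), a[i] ≤ b[i]) ∧
    (∀ i (hi : i < a.length) (hi' : i + 1 < b.length), b[i + 1] ≤ a[i]) := by
  have hex : ∀ x y : ℝ, x < y → ∃ c, x < c ∧ c < y ∧ c ∉ a ∧ c ∉ b := by
    intro x y hxy
    have hinf : (Set.Ioo x y).Infinite := Set.Ioo_infinite hxy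
    have hfin : ({c | c ∈ a ∨ c ∈ b} : Set ℝ).Finite := by
      apply (List.finite_toSet (a ++ b)).subset
      intro c hc
      simpa using hc
    obtain ⟨c, hc1, hc2⟩ := (hinf.sdiff hfin).nonempty
    have hc3 : ¬ (c ∈ a ∨ c ∈ b) := hc2
    push Not at hc3
    exact ⟨c, hc1.1, hc1.2, hc3.1, hc3.2⟩
  constructor
  · intro i hi hi'
    by_contra hlt
    push Not at hlt
    obtain ⟨c, hc1, hc2, hca, hcb⟩ := hex _ _ hlt
    have h1 := le_countP ha hi hc2
    have h2 := countP_le hb hi' hc1.le
    have h3 := (count_le a b h c hca hcb).1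
    omega
  · intro i hi hi'
    by_contra hlt
    push Not at hlt
    obtain ⟨c, hc1, hc2, hca, hcb⟩ := hex _ _ hlt
    have h1 := le_countP hb hi' hc2
    have h2 := countP_le ha hi hc1.le
    have h3 := (count_le a b h c hca hcb).2
    omega

end Pool.Agent.W_MP_308f9e_co
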