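import Pool.Agent.W_MP_308f9e_co.Comb
import Pool.Agent.W_MP_308f9e_co.Interlace

open Polynomial ComplexConjugate

namespace Pool.Agent.W_MP_308f9e_co

lemma card_isolated {a n : ℕ} {S : Finset ℕ} (hS : S ⊆ Finset.Icc a n) (hiso : Isolated S) :
    2 * S.card ≤ n + 2 - a := by
  have h1 : Disjoint S (S.map (addRightEmbedding 1)) := by
    rw [Finset.disjoint_left]
    intro x hx hx'
    rw [Finset.mem_map] at hx'
    obtain ⟨y, hy, rfl⟩ := hx'
    exact hiso y hy hx
  have h2 : S ∪ S.map (addRightEmbedding 1) ⊆ Finset.Icc a (n + 1) := by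
    intro x hx
    rw [Finset.mem_union, Finset.mem_map] at hx
    rcases hx with hx | ⟨y, hy, rfl⟩
    · have := Finset.mem_Icc.mp (hS hx)
      rw [Finset.mem_Icc]; omega
    · have := Finset.mem_Icc.mp (hS hy)
      rw [Finset.mem_Icc, addRightEmbedding_apply]; omega
  have h3 := Finset.card_le_card h2
  rw [Finset.card_union_of_disjoint h1, Finset.card_map, Nat.card_Icc] at h3
  omega

/-- The general shape of the two polynomials. -/
noncomputable def Gen (F : Finset (Finset ℕ)) (c : Finset ℕ → ℤ) (d : ℕ) : ℤ[X] :=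
  ∑ S ∈ F, C (c S) * X ^ S.card * (1 + X) ^ (d - 2 * S.card)

lemma term_natDegree (c : ℤ) (s e : ℕ) :
    (C c * X ^ s * (1 + X) ^ e : ℤ[X]).natDegree ≤ s + e := by
  refine natDegree_mul_le.trans ?_
  refine add_le_add (natDegree_C_mul_X_pow_le _ _) ?_
  have h : ((1 + X : ℤ[X])).natDegree ≤ 1 := by
    refine (natDegree_add_le _ _).trans ?_
    simp
  simpa using natDegree_pow_le_of_le e h

lemma Gen_monic {F : Finset (Finset ℕ)} {c : Finset ℕ → ℤ} {d : ℕ} (h0 : ∅ ∈ F) (hc : c ∅ = 1)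
    (hF : ∀ S ∈ F, 2 * S.card ≤ d) : (Gen F c d).Monic ∧ (Gen F c d).natDegree = d := by
  have hdeg : (Gen F c d).natDegree ≤ d := by
    refine natDegree_sum_le_of_forall_le _ _ fun S hS => ?_
    have h1 := hF S hS
    have h2 := term_natDegree (c S) S.card (d - 2 * S.card)
    omega
  have hcoeff : (Gen F c d).coeff d = 1 := by
    unfold Gen
    rw [Polynomial.finsetSum_coeff, Finset.sum_eq_single ∅]
    · simp only [Finset.card_empty, mul_zero, Nat.sub_zero, pow_zero, mul_one, hc, map_one,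
        one_mul]
      rw [add_comm, coeff_X_add_one_pow]
      simp
    · intro S hS hne
      apply coeff_eq_zero_of_natDegree_lt
      have h1 := hF S hS
      have h2 := term_natDegree (c S) S.card (d - 2 * S.card)
      have h3 : 0 < S.card := Finset.card_pos.mpr (Finset.nonempty_iff_ne_empty.mpr hne)
      omega
    · intro h; exact absurd h0 h
  have hm : (Gen F c d).Monic := monic_of_natDegree_le_of_coeff_eq_one d hdeg hcoeff
  refine ⟨hm, le_antisymm hdeg (le_natDegree_of_ne_zero ?_)⟩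
  rw [hcoeff]; exact one_ne_zero

lemma aeval_Gen {F : Finset (Finset ℕ)} {c : Finset ℕ → ℤ} {d : ℕ}
    (hF : ∀ S ∈ F, 2 * S.card ≤ d) (x t : ℂ) (hxt : x = t * (1 + x) ^ 2) :
    aeval x (Gen F c d) = (1 + x) ^ d * ∑ S ∈ F, t ^ S.card * (c S : ℂ) := by
  unfold Gen
  rw [map_sum, Finset.mul_sum]
  refine Finset.sum_congr rfl fun S hS => ?_
  obtain ⟨e, he⟩ := Nat.exists_eq_add_of_le (hF S hS)
  have h1 : d - 2 * S.card = e := by omega
  rw [h1]
  have h3 : aeval x (C (c S)) = (c S : ℂ) := by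
    rw [aeval_C]; simp
  simp only [map_mul, map_pow, map_add, map_one, aeval_X, h3]
  have h2 : x ^ S.card = t ^ S.card * (1 + x) ^ (2 * S.card) := by
    rw [pow_mul, ← mul_pow, ← hxt]
  rw [h2, he, pow_add]
  ring

lemma conj_aeval (f : ℤ[X]) (z : ℂ) : aeval (conj z) f = conj (aeval z f) := by
  have h := Polynomial.aeval_algHom_apply ((starRingEnd ℂ).toIntAlgHom) z f
  simpa using h

lemma aeval_eq_eval_map (f : ℤ[X]) (z : ℂ) :
    aeval z f = eval z ((f.map (Int.castRingHom ℝ)).map (algebraMap ℝ ℂ)) := by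
  rw [Polynomial.map_map, eval_map, aeval_def]
  congr 1

lemma exists_root_list (f : ℤ[X]) (hfm : f.Monic) (hfr : RealRooted f) :
    ∃ a : List ℝ, a.Pairwise (· ≥ ·) ∧ (a : Multiset ℝ) = (f.map (Int.castRingHom ℝ)).roots ∧
      a.length = f.natDegree ∧ ∀ z : ℂ, aeval z f = Pr a z := by
  have hfm' : (f.map (Int.castRingHom ℝ)).Monic := hfm.map _
  have hs : (f.map (Int.castRingHom ℝ)).Splits := by
    refine Splits.of_splits_map (algebraMap ℝ ℂ) (IsAlgClosed.splits _) ?_
    intro z hz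
    rw [mem_roots', IsRoot.def, ← aeval_eq_eval_map] at hz
    have h1 := hfr z hz.2
    refine ⟨z.re, ?_⟩
    apply Complex.ext
    · simp
    · simp [h1]
  refine ⟨(f.map (Int.castRingHom ℝ)).roots.sort (· ≥ ·), ?_, ?_, ?_, ?_⟩
  · exact Multiset.pairwise_sort _ _
  · exact Multiset.sort_eq _ _
  · rw [Multiset.length_sort, ← hs.natDegree_eq_card_roots, hfm.natDegree_map]
  · intro z
    have h1 : ((f.map (Int.castRingHom ℝ)).roots.sort (· ≥ ·) : Multiset ℝ)
        = (f.map (Int.castRingHom ℝ)).roots := Multiset.sort_eq _ _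
    have h2 : Pr ((f.map (Int.castRingHom ℝ)).roots.sort (· ≥ ·)) z
        = ((f.map (Int.castRingHom ℝ)).roots.map (fun b : ℝ => z - b)).prod := by
      rw [Pr, ← Multiset.prod_coe, ← Multiset.map_coe, h1]
    rw [h2, aeval_eq_eval_map, eval_map_algebraMap,
      (hs.map (algebraMap ℝ ℂ)).aeval_eq_prod_aroots_of_monic hfm', aroots,
      hs.roots_map, Multiset.map_map]
    rfl

/-- Real-rootedness and interlacing from the half plane. -/
theorem interlaces_of {f g : ℤ[X]} (hf : f.Monic) (hg : g.Monic)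
    (hdeg : g.natDegree = f.natDegree + 1)
    (hf0 : ∀ x : ℂ, 0 < x.im → aeval x f ≠ 0) (hg0 : ∀ x : ℂ, 0 < x.im → aeval x g ≠ 0)
    (him : ∀ x : ℂ, 0 < x.im → 0 ≤ (aeval x g * conj (aeval x f)).im) :
    RealRooted f ∧ RealRooted g ∧ Interlaces f g := by
  have hreal : ∀ f : ℤ[X], (∀ x : ℂ, 0 < x.im → aeval x f ≠ 0) → RealRooted f := by
    intro f hf z hz
    by_contra him
    rcases lt_or_gt_of_ne him with h | h
    · apply hf (conj z) (by simpa using h)
      rw [conj_aeval, hz, map_zero]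
    · exact hf z h hz
  refine ⟨hreal f hf0, hreal g hg0, ?_⟩
  obtain ⟨a, ha1, ha2, ha3, ha4⟩ := exists_root_list f hf (hreal f hf0)
  obtain ⟨b, hb1, hb2, hb3, hb4⟩ := exists_root_list g hg (hreal g hg0)
  have h := interlace_of_im a b ha1 hb1 (by
    intro z hz
    rw [← ha4, ← hb4]
    exact him z hz)
  exact ⟨a, b, ha1, hb1, ha2, hb2, Or.inr (by rw [ha3, hb3, hdeg]), h.1, h.2⟩

lemma slitPlane_of {x : ℂ} (hx : 0 < x.im) : x / (1 + x) ^ 2 ∈ Complex.slitPlane := by
  have hx1 : (1 + x) ≠ 0 := by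
    intro h
    have := congrArg Complex.im h
    simp at this
    linarith
  by_contra hcon
  rw [Complex.mem_slitPlane_iff_not_le_zero, not_not] at hcon
  obtain ⟨hre, him⟩ := Complex.le_def.mp hcon
  set t : ℂ := x / (1 + x) ^ 2 with ht
  simp only [Complex.zero_re, Complex.zero_im] at hre him
  have hxt : x = t * (1 + x) ^ 2 := by
    rw [ht]; field_simp
  have ht' : t = (t.re : ℂ) := by
    apply Complex.ext
    · simp
    · simp [him]
  rw [ht'] at hxt
  set r := t.re with hr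
  have h1 := congrArg Complex.re hxt
  have h2 := congrArg Complex.im hxt
  simp [pow_two] at h1 h2
  -- `y = 2 r (1 + u) y` so `2 r (1 + u) = 1`
  have h3 : 2 * r * (1 + x.re) = 1 := by
    have : x.im * (2 * r * (1 + x.re)) = x.im * 1 := by linarith
    exact mul_left_cancel₀ hx.ne' this
  have h4 : 0 < x.im * x.im := by positivity
  have h5 : r < 0 := by
    rcases hre.lt_or_eq with h | h
    · exact h
    · rw [h] at h3; simp at h3
  -- `u = r ((1+u)^2 - y^2)`
  have h6 : x.re = r * ((1 + x.re) * (1 + x.re) - x.im * x.im) := by linarith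
  nlinarith [mul_pos_of_neg_of_neg h5 h5, h3, h6, h4, mul_neg_of_neg_of_pos h5 h4,
    sq_nonneg (1 + x.re)]

lemma im_nonneg_of {x : ℂ} (hx : 0 < x.im) {n : ℕ} {g f : ℂ}
    (h : g * conj f ∈ K (x / (1 + x) ^ 2)) :
    0 ≤ ((1 + x) ^ (n + 1) * g * conj ((1 + x) ^ n * f)).im := by
  obtain ⟨a, b, ha, hb, hab⟩ := h
  have hx1 : (1 + x) ≠ 0 := by
    intro h
    have := congrArg Complex.im h
    simp at this
    linarith
  have h1 : (1 + x) ^ (n + 1) * g * conj ((1 + x) ^ n * f)
      = ((Complex.normSq (1 + x) ^ n : ℝ) : ℂ) * ((a : ℂ) * (1 + x) + (b : ℂ) * (x / (1 + x))) := by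
    have h2 : (1 + x) ^ (n + 1) * g * conj ((1 + x) ^ n * f)
        = ((1 + x) * conj (1 + x)) ^ n * (1 + x) * (g * conj f) := by
      rw [map_mul, map_pow, mul_pow, pow_succ]
      ring
    rw [h2, hab, Complex.mul_conj]
    push_cast
    field_simp
  rw [h1, Complex.im_ofReal_mul]
  refine mul_nonneg (pow_nonneg (Complex.normSq_nonneg _) _) ?_
  rw [Complex.add_im, Complex.im_ofReal_mul, Complex.im_ofReal_mul]
  have h3 : 0 ≤ (x / (1 + x)).im := by
    rw [Complex.div_im]
    have h4 : 0 < Complex.normSq (1 + x) := Complex.normSq_pos.mpr hx1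
    rw [← sub_div]
    refine div_nonneg ?_ h4.le
    simp
    nlinarith
  have h5 : (1 + x).im = x.im := by simp
  rw [h5]
  positivity

theorem main {P : Type*} [PartialOrder P] [OrderBot P] [Finite P] {n : ℕ} (hn : 1 ≤ n)
    (hP : IsGradedSimplicial P n) (hpos : ∀ j, 0 ≤ (hPoly P n).coeff j) :
    RealRooted (chow P n) ∧ RealRooted (augChow P n) ∧ Interlaces (chow P n) (augChow P n) := by
  obtain ⟨m, rfl⟩ : ∃ m, n = m + 1 := ⟨n - 1, by omega⟩
  have hF2 : ∀ S ∈ (Finset.Icc 2 (m + 1)).powerset.filter Isolated, 2 * S.card ≤ m + 1 := by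
    intro S hS
    rw [Finset.mem_filter, Finset.mem_powerset] at hS
    have := card_isolated hS.1 hS.2
    omega
  have hF1 : ∀ S ∈ (Finset.Icc 1 (m + 1)).powerset.filter Isolated,
      2 * S.card ≤ m + 1 + 1 := by
    intro S hS
    rw [Finset.mem_filter, Finset.mem_powerset] at hS
    have := card_isolated hS.1 hS.2
    omega
  have hH0 : flagH P ∅ = 1 := by
    simp [flagH, flagF_empty]
  have hempty : ∀ a b, ∅ ∈ (Finset.Icc a b).powerset.filter Isolated := by
    intro a b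
    rw [Finset.mem_filter, Finset.mem_powerset]
    exact ⟨Finset.empty_subset _, fun i hi => by simp at hi⟩
  have hc : chow P (m + 1) = Gen ((Finset.Icc 2 (m + 1)).powerset.filter Isolated) (flagH P)
    (m + 1) := rfl
  have hu : augChow P (m + 1) = Gen ((Finset.Icc 1 (m + 1)).powerset.filter Isolated) (flagH P)
    (m + 1 + 1) := rfl
  obtain ⟨hcm, hcd⟩ := Gen_monic (hempty 2 (m + 1)) hH0 hF2
  obtain ⟨hum, hud⟩ := Gen_monic (hempty 1 (m + 1)) hH0 hF1
  rw [← hc] at hcm hcd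
  rw [← hu] at hum hud
  -- the `h`-vector
  let h : ℕ → ℝ := fun i => ((hPoly P (m + 1)).coeff i : ℝ)
  have hh : ∀ i, 0 ≤ h i := fun i => by
    show (0 : ℝ) ≤ (((hPoly P (m + 1)).coeff i : ℤ) : ℝ)
    exact_mod_cast hpos i
  have hh0 : h 0 = 1 := by
    show ((((hPoly P (m + 1)).coeff 0 : ℤ)) : ℝ) = 1
    have : (hPoly P (m + 1)).coeff 0 = 1 := by
      unfold hPoly
      rw [Polynomial.finsetSum_coeff, Finset.sum_eq_single 0]
      · rw [rankNum_zero, coeff_zero_eq_eval_zero]; simp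
      · intro i _ hi
        rw [coeff_zero_eq_eval_zero]
        simp [hi]
      · intro h; simp at h
    rw [this]; simp
  have hbet : ∀ S, S ⊆ Finset.Icc 1 (m + 1) → ((flagH P S : ℤ) : ℂ)
      = bet (m + 1) S (fun i => (h i : ℂ)) := by
    intro S hS
    rw [flagH_eq_bet P hP S hS]
    have := map_bet (Int.castRingHom ℂ) (m + 1) S (fun i => (hPoly P (m + 1)).coeff i)
    simp only [Int.coe_castRingHom] at this
    rw [this]
    refine bet_congr _ _ _ _ fun j _ => ?_
    show (((hPoly P (m + 1)).coeff j : ℤ) : ℂ) = ((((hPoly P (m + 1)).coeff j : ℤ) : ℝ) : ℂ)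
    push_cast
    rfl
  have hsum : ∀ (t : ℂ) (a : ℕ), 1 ≤ a →
      ∑ S ∈ (Finset.Icc a (m + 1)).powerset.filter Isolated, t ^ S.card * (flagH P S : ℂ)
      = Fs t a (m + 1) (fun i => (h i : ℂ)) (fun i => (h i : ℂ)) := by
    intro t a ha
    unfold Fs
    refine Finset.sum_congr rfl fun S hS => ?_
    rw [Finset.mem_filter, Finset.mem_powerset] at hS
    rw [ite_self, hbet S (hS.1.trans (Finset.Icc_subset_Icc_left ha))]
  have hkey : ∀ x : ℂ, 0 < x.im →
      aeval x (chow P (m + 1)) = (1 + x) ^ (m + 1) *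
        (G (x / (1 + x) ^ 2) (m + 1) (fun i => (h i : ℂ)) (fun i => (h i : ℂ))).2 ∧
      aeval x (augChow P (m + 1)) = (1 + x) ^ (m + 1 + 1) *
        (G (x / (1 + x) ^ 2) (m + 1) (fun i => (h i : ℂ)) (fun i => (h i : ℂ))).1 := by
    intro x hx
    have hx1 : (1 + x) ≠ 0 := by
      intro h
      have := congrArg Complex.im h
      simp at this
      linarith
    have hxt : x = x / (1 + x) ^ 2 * (1 + x) ^ 2 := by field_simp
    constructor
    · rw [hc, aeval_Gen hF2 x _ hxt, hsum _ 2 (by omega), Fs_two]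
    · rw [hu, aeval_Gen hF1 x _ hxt, hsum _ 1 le_rfl, Fs_one]
  have hspec : ∀ x : ℂ, 0 < x.im →
      (G (x / (1 + x) ^ 2) (m + 1) (fun i => (h i : ℂ)) (fun i => (h i : ℂ))).1 *
      conj (G (x / (1 + x) ^ 2) (m + 1) (fun i => (h i : ℂ)) (fun i => (h i : ℂ))).2
        ∈ K (x / (1 + x) ^ 2) ∧
      (G (x / (1 + x) ^ 2) (m + 1) (fun i => (h i : ℂ)) (fun i => (h i : ℂ))).1 ≠ 0 ∧
      (G (x / (1 + x) ^ 2) (m + 1) (fun i => (h i : ℂ)) (fun i => (h i : ℂ))).2 ≠ 0 := by
    intro x hx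
    exact G_spec (slitPlane_of hx) _ _ _ (Inv.start _ h hh (by rw [hh0]; exact one_ne_zero))
  have hx1 : ∀ x : ℂ, 0 < x.im → (1 + x) ≠ 0 := by
    intro x hx h
    have := congrArg Complex.im h
    simp at this
    linarith
  refine interlaces_of hcm hum (by rw [hcd, hud]) ?_ ?_ ?_
  · intro x hx
    rw [(hkey x hx).1]
    exact mul_ne_zero (pow_ne_zero _ (hx1 x hx)) (hspec x hx).2.2
  · intro x hx
    rw [(hkey x hx).2]
    exact mul_ne_zero (pow_ne_zero _ (hx1 x hx)) (hspec x hx).2.1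
  · intro x hx
    rw [(hkey x hx).1, (hkey x hx).2]
    exact im_nonneg_of hx (hspec x hx).1

end Pool.Agent.W_MP_308f9e_co
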