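import Pool.Agent.W_MP_308f9e_co.Counterexamples
import Pool.Agent.W_MP_308f9e_co.SharedEdgeDefs

/-!
# Two 4-simplices sharing an edge
-/

open Polynomial

namespace Pool.Agent.W_MP_308f9e_co

lemma filter_five : ((Finset.Icc 1 5).powerset.filter Isolated) =
    ({∅, {1}, {2}, {3}, {4}, {5}, {1, 3}, {1, 4}, {1, 5}, {2, 4}, {2, 5}, {3, 5}, {1, 3, 5}} :
      Finset (Finset ℕ)) := by decide

lemma K_simplicial : IsSimplicialOfRank K 5 := isSimplicial (by decide) (by decide)

lemma K1 : rankCount K 1 = 8 := by rw [rankCount_two]; decide +kernel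
lemma K2 : rankCount K 2 = 19 := by rw [rankCount_two]; decide +kernel
lemma K3 : rankCount K 3 = 20 := by rw [rankCount_two]; decide +kernel
lemma K4 : rankCount K 4 = 10 := by rw [rankCount_two]; decide +kernel
lemma K5 : rankCount K 5 = 2 := by rw [rankCount_two]; decide +kernel

lemma K135 : flagH K {1, 3, 5} = -1 := by
  have h3 : flagF K {1, 3, 5} = 60 := by
    have := flagF_insert_eq K_simplicial 5 {1, 3} (by decide)
    rw [show insert 5 ({1, 3} : Finset ℕ) = {1, 3, 5} by decide] at this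
    rw [this, K5]
    have h13 := sort_insert_max 3 {1} (by decide)
    rw [show insert 3 ({1} : Finset ℕ) = {1, 3} by decide] at h13
    rw [h13]
    simp [chainCount, Nat.choose]
  rw [flagH, show ({1, 3, 5} : Finset ℕ).powerset =
    {∅, {1}, {3}, {5}, {1, 3}, {1, 5}, {3, 5}, {1, 3, 5}} by decide]
  rw [Finset.sum_insert (by decide), Finset.sum_insert (by decide), Finset.sum_insert (by decide),
    Finset.sum_insert (by decide), Finset.sum_insert (by decide), Finset.sum_insert (by decide),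
    Finset.sum_pair (by decide)]
  rw [h3, flagF_empty, flagF_singleton K_simplicial, flagF_singleton K_simplicial,
    flagF_singleton K_simplicial, flagF_pair K_simplicial (by norm_num),
    flagF_pair K_simplicial (by norm_num), flagF_pair K_simplicial (by norm_num), K1, K3, K5]
  rw [show (({1, 3, 5} : Finset ℕ) \ ∅).card = 3 by decide,
    show (({1, 3, 5} : Finset ℕ) \ {1}).card = 2 by decide,
    show (({1, 3, 5} : Finset ℕ) \ {3}).card = 2 by decide,
    show (({1, 3, 5} : Finset ℕ) \ {5}).card = 2 by decide,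
    show (({1, 3, 5} : Finset ℕ) \ {1, 3}).card = 1 by decide,
    show (({1, 3, 5} : Finset ℕ) \ {1, 5}).card = 1 by decide,
    show (({1, 3, 5} : Finset ℕ) \ {3, 5}).card = 1 by decide,
    show (({1, 3, 5} : Finset ℕ) \ {1, 3, 5}).card = 0 by decide]
  norm_num [Nat.choose]

lemma K_chowAug : chowAug K 5 =
    (1 + X) ^ 6 + 54 * X * (1 + X) ^ 4 + 88 * X ^ 2 * (1 + X) ^ 2 - X ^ 3 := by
  have hP := K_simplicial
  rw [chowAug, filter_five]
  rw [Finset.sum_insert (by decide), Finset.sum_insert (by decide), Finset.sum_insert (by decide),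
    Finset.sum_insert (by decide), Finset.sum_insert (by decide), Finset.sum_insert (by decide),
    Finset.sum_insert (by decide), Finset.sum_insert (by decide), Finset.sum_insert (by decide),
    Finset.sum_insert (by decide), Finset.sum_insert (by decide), Finset.sum_pair (by decide)]
  rw [flagH_empty, flagH_singleton hP, flagH_singleton hP, flagH_singleton hP, flagH_singleton hP,
    flagH_singleton hP, flagH_pair hP (by norm_num), flagH_pair hP (by norm_num),
    flagH_pair hP (by norm_num), flagH_pair hP (by norm_num), flagH_pair hP (by norm_num),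
    flagH_pair hP (by norm_num), K135, K1, K2, K3, K4, K5]
  simp only [Finset.card_empty, Finset.card_singleton,
    Finset.card_pair (show (1 : ℕ) ≠ 3 by decide), Finset.card_pair (show (1 : ℕ) ≠ 4 by decide),
    Finset.card_pair (show (1 : ℕ) ≠ 5 by decide), Finset.card_pair (show (2 : ℕ) ≠ 4 by decide),
    Finset.card_pair (show (2 : ℕ) ≠ 5 by decide), Finset.card_pair (show (3 : ℕ) ≠ 5 by decide),
    show ({1, 3, 5} : Finset ℕ).card = 3 by decide]
  have hC : ∀ k : ℤ, (C (k : ℝ) : ℝ[X]) = (k : ℝ[X]) := fun k => map_intCast C k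
  simp only [hC]
  push_cast [Nat.choose]
  ring

lemma K_root : ∃ z : ℂ, z.im ≠ 0 ∧ aeval z (chowAug K 5) = 0 := by
  have hc : ContinuousOn (fun w : ℝ => w ^ 3 + 54 * w ^ 2 + 88 * w - 1) (Set.Icc 0 1) := by
    fun_prop
  have h0 : (0 : ℝ) ∈ Set.Icc ((0 : ℝ) ^ 3 + 54 * 0 ^ 2 + 88 * 0 - 1)
      ((1 : ℝ) ^ 3 + 54 * 1 ^ 2 + 88 * 1 - 1) := by norm_num
  obtain ⟨w, ⟨hw0, hw1⟩, hw⟩ := intermediate_value_Icc (zero_le_one) hc h0
  have hw' : w ^ 3 + 54 * w ^ 2 + 88 * w - 1 = 0 := hw
  have hwpos : 0 < w := by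
    rcases hw0.lt_or_eq with h | h
    · exact h
    · rw [← h] at hw'
      norm_num at hw'
  obtain ⟨z, hz, hz0⟩ := nonreal_root (u := w - 2) (by linarith) (by linarith)
  refine ⟨z, hz, ?_⟩
  rw [K_chowAug]
  have hwC : (w : ℂ) ^ 3 + 54 * (w : ℂ) ^ 2 + 88 * (w : ℂ) - 1 = 0 := by exact_mod_cast hw'
  have h1 : (1 + z) ^ 2 = w * z := by
    push_cast at hz0
    linear_combination hz0
  simp only [map_add, map_sub, map_mul, map_pow, aeval_X, map_one, map_ofNat]
  rw [show (1 + z) ^ 6 = ((1 + z) ^ 2) ^ 3 by ring, show (1 + z) ^ 4 = ((1 + z) ^ 2) ^ 2 by ring, h1]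
  linear_combination z ^ 3 * hwC

lemma K_facet_ne_bot {A : Finset (Fin 8)} (hA : A.Nonempty)
    (h : A ⊆ ({0, 1, 2, 3, 4} : Finset (Fin 8)) ∨ A ⊆ {3, 4, 5, 6, 7}) :
    (⟨A, h⟩ : K) ≠ ⊥ := by
  intro he
  exact hA.ne_empty (congrArg Subtype.val he)

lemma K_connected : ConnectedAboveBot K := by
  have key : ∀ x : K, x ≠ ⊥ →
      Relation.ReflTransGen (fun a b : K => a ≠ ⊥ ∧ b ≠ ⊥ ∧ (a ≤ b ∨ b ≤ a)) x
        ⟨{3}, Or.inl (by decide)⟩ := by
    intro x hx
    rcases x.2 with h | h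
    · refine Relation.ReflTransGen.tail (b := ⟨{0, 1, 2, 3, 4}, Or.inl le_rfl⟩)
        (Relation.ReflTransGen.single ⟨hx, K_facet_ne_bot (by simp) _, Or.inl h⟩)
        ⟨K_facet_ne_bot (by simp) _, K_facet_ne_bot (by simp) _, Or.inr ?_⟩
      change ({3} : Finset (Fin 8)) ⊆ {0, 1, 2, 3, 4}
      decide
    · refine Relation.ReflTransGen.tail (b := ⟨{3, 4, 5, 6, 7}, Or.inr le_rfl⟩)
        (Relation.ReflTransGen.single ⟨hx, K_facet_ne_bot (by simp) _, Or.inl h⟩)
        ⟨K_facet_ne_bot (by simp) _, K_facet_ne_bot (by simp) _, Or.inr ?_⟩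
      change ({3} : Finset (Fin 8)) ⊆ {3, 4, 5, 6, 7}
      decide
  intro x y hx hy
  refine (key x hx).trans ?_
  have := key y hy
  rw [← Relation.reflTransGen_swap] at this
  exact Relation.ReflTransGen.mono (fun a b h => ⟨h.2.1, h.1, h.2.2.symm⟩) _ _ this

theorem sharedEdge : ∃ (P : Type) (_ : PartialOrder P) (_ : OrderBot P) (_ : GradeMinOrder ℕ P),
    Finite P ∧ IsSimplicialOfRank P 5 ∧ ConnectedAboveBot P ∧
      chowAug P 5 = X ^ 6 + 60 * X ^ 5 + 319 * X ^ 4 + 519 * X ^ 3 + 319 * X ^ 2 + 60 * X + 1 ∧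
      ∃ z : ℂ, z.im ≠ 0 ∧ aeval z (chowAug P 5) = 0 := by
  refine ⟨K, inferInstance, inferInstance, inferInstance, inferInstance, K_simplicial,
    K_connected, ?_, K_root⟩
  rw [K_chowAug]
  ring

end Pool.Agent.W_MP_308f9e_co
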